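import Mathlib
import Pool.Agent.Helper53.GD.IrrSq

set_option autoImplicit false

namespace Pool.Agent.Helper53.GE

open Polynomial Pool.Agent.Helper53.FF Pool.Agent.Helper53.GD

/-- the pairs of the question -/
def Admissible (a b : ℤ) : Prop :=
  IsCoprime a b ∧ 1 < a ∧ -a < b ∧ b < a ∧
    (¬ ∃ r : ℕ, 1 < r ∧ (∃ u : ℤ, u ^ r = a) ∧ ∃ v : ℤ, v ^ r = b) ∧ ¬ ∃ w : ℤ, w ^ 4 = -4 * a * b

lemma ne_zero_of_adm {a b : ℤ} (h : Admissible a b) : b ≠ 0 := by
  rintro rfl
  have h1 := h.1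
  rw [isCoprime_zero_right] at h1
  rcases Int.isUnit_iff.1 h1 with h2 | h2 <;> have := h.2.1 <;> omega

/-- a `p`-th root of `y ^ n` gives one of `y` -/
lemma pow_root {y ρ : ℚ} (hy : y ≠ 0) {p n : ℕ} (hp : p.Coprime n) (h : ρ ^ p = y ^ n) :
    ∃ σ : ℚ, σ ^ p = y := by
  obtain ⟨u, v, huv⟩ := Nat.isCoprime_iff_coprime.2 hp
  refine ⟨y ^ u * ρ ^ v, ?_⟩
  calc (y ^ u * ρ ^ v) ^ p = y ^ (u * p) * (ρ ^ p) ^ v := by
        rw [mul_pow, ← zpow_natCast (y ^ u), ← zpow_mul, ← zpow_natCast (ρ ^ v), ← zpow_mul,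
          ← zpow_natCast ρ p, ← zpow_mul, mul_comm v]
    _ = y ^ (u * p) * y ^ (v * n) := by
        rw [h, ← zpow_natCast y n, ← zpow_mul, mul_comm v]
    _ = y ^ (u * p + v * n) := by rw [zpow_add₀ hy]
    _ = y := by rw [huv, zpow_one]

/-- powers which are fractions in lowest terms -/
lemma frac_pow {a b : ℤ} (ha : 0 < a) (hcop : IsCoprime a b) {σ : ℚ} {p : ℕ}
    (h : σ ^ p = (b : ℚ) / a) : σ.num ^ p = b ∧ (σ.den : ℤ) ^ p = a := by
  have hc : Nat.Coprime b.natAbs a.natAbs := by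
    have := Int.isCoprime_iff_gcd_eq_one.1 hcop.symm
    exact this
  constructor
  · have h1 : (σ ^ p).num = σ.num ^ p := Rat.num_pow σ p
    rw [← h1, h]
    exact Rat.num_div_eq_of_coprime ha hc
  · have h1 : (σ ^ p).den = σ.den ^ p := Rat.den_pow σ p
    have h2 : (((b : ℚ) / a).den : ℤ) = a := Rat.den_div_eq_of_coprime ha hc
    rw [← h, h1] at h2
    push_cast at h2
    exact h2

/-- `X ^ q - (b / a) ^ n` is irreducible for admissible pairs -/
theorem irr_pair {a b : ℤ} (h : Admissible a b) {n q : ℕ} (hq : 1 ≤ q)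
    (hcop : ∀ p : ℕ, p.Prime → p ∣ q → ¬ p ∣ n) :
    Irreducible (X ^ q - C (((b : ℚ) / a) ^ n) : ℚ[X]) := by
  have hb0 := ne_zero_of_adm h
  obtain ⟨hab, ha1, hb1, hb2, hpow, h4⟩ := h
  have haq : (0 : ℚ) < a := by exact_mod_cast (by omega : 0 < a)
  have hbq : (b : ℚ) ≠ 0 := by exact_mod_cast hb0
  have hy : (b : ℚ) / a ≠ 0 := div_ne_zero hbq haq.ne'
  -- no roots
  have hnr : ∀ p : ℕ, p.Prime → p ∣ q → ∀ r : ℚ, r ^ p ≠ ((b : ℚ) / a) ^ n := by
    intro p hp hpq r hr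
    obtain ⟨σ, hσ⟩ := pow_root hy ((Nat.Prime.coprime_iff_not_dvd hp).2 (hcop p hp hpq)) hr
    obtain ⟨e1, e2⟩ := frac_pow (by omega) hab hσ
    exact hpow ⟨p, hp.one_lt, ⟨_, e2⟩, ⟨_, e1⟩⟩
  have hnr' : ∀ p : ℕ, p.Prime → p ≠ 2 → p ∣ q → ∀ r : ℚ, r ^ p ≠ -((b : ℚ) / a) ^ n := by
    intro p hp hp2 hpq r hr
    apply hnr p hp hpq (-r)
    rw [(hp.odd_of_ne_two hp2).neg_pow, hr, neg_neg]
  obtain ⟨s, w, hw, rfl⟩ := Nat.exists_eq_two_pow_mul_odd (by omega : q ≠ 0)
  -- the two-power part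
  have h3 : Irreducible (X ^ (2 ^ s) - C (((b : ℚ) / a) ^ n) : ℚ[X]) := by
    rcases Nat.eq_zero_or_pos s with hs | hs
    · subst hs
      rw [pow_zero, pow_one]
      exact irreducible_X_sub_C _
    have h2q : 2 ∣ 2 ^ s * w := Dvd.dvd.mul_right (dvd_pow_self 2 (by omega)) w
    have hn2 := hcop 2 Nat.prime_two h2q
    have hnodd : Odd n := by
      rw [← Nat.not_even_iff_odd, even_iff_two_dvd]; exact hn2
    rcases lt_or_gt_of_ne hb0 with hbneg | hbpos
    · -- negative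
      have hyneg : (b : ℚ) / a < 0 := div_neg_of_neg_of_pos (by exact_mod_cast hbneg) haq
      have hτneg : ((b : ℚ) / a) ^ n < 0 := hnodd.pow_neg hyneg
      by_cases hsq : ∃ r : ℚ, r ^ 2 = -((b : ℚ) / a) ^ n
      · obtain ⟨r, hr⟩ := hsq
        have hr0 : r ≠ 0 := by
          rintro rfl
          rw [zero_pow (by norm_num)] at hr
          linarith
        have hA : 0 < |r| := abs_pos.2 hr0
        have hA2 : |r| ^ 2 = -((b : ℚ) / a) ^ n := by rw [sq_abs, hr]
        have hτ : ((b : ℚ) / a) ^ n = -(|r| ^ 2) := by rw [hA2, neg_neg]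
        rw [hτ]
        apply irr_two_sq hA
        intro ρ hρ
        -- `-b / a` is a square
        have hy' : ((-b : ℤ) : ℚ) / a ≠ 0 := by
          push_cast
          exact div_ne_zero (neg_ne_zero.2 hbq) haq.ne'
        have hpn : (((-b : ℤ) : ℚ) / a) ^ n = -((b : ℚ) / a) ^ n := by
          push_cast
          rw [neg_div, hnodd.neg_pow]
        obtain ⟨σ, hσ⟩ := pow_root (p := 2) (n := n) (ρ := |r|) hy'
          ((Nat.Prime.coprime_iff_not_dvd Nat.prime_two).2 hn2) (by rw [hpn, hA2])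
        obtain ⟨e1, e2⟩ := frac_pow (by omega) hab.neg_right hσ
        have hσ0 : σ ≠ 0 := by
          rintro rfl
          rw [zero_pow (by norm_num)] at hσ
          exact hy' hσ.symm
        -- `|r| = |σ| ^ n`
        have hrσ : |r| = |σ| ^ n := by
          have e3 : |r| ^ 2 = (|σ| ^ n) ^ 2 := by
            rw [hA2, ← hpn, ← hσ, ← pow_mul, ← pow_mul, mul_comm n 2, pow_mul, pow_mul, sq_abs]
          exact (pow_left_inj₀ hA.le (by positivity) (by norm_num)).1 e3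
        obtain ⟨t, ht⟩ := hnodd
        have hσpos : 0 < |σ| := abs_pos.2 hσ0
        have hdq : (0 : ℚ) < σ.den := by exact_mod_cast σ.den_pos
        have hden : |σ| * σ.den = ((σ.num.natAbs : ℕ) : ℚ) := by
          have e4 : σ * σ.den = σ.num := Rat.mul_den_eq_num σ
          have e5 : |σ * σ.den| = |(σ.num : ℚ)| := by rw [e4]
          rw [abs_mul, abs_of_pos hdq] at e5
          rw [e5, Nat.cast_natAbs, Int.cast_abs]
        have h5 : (ρ * σ.den / |σ| ^ t) ^ 2 = ((2 * (σ.num.natAbs * σ.den) : ℕ) : ℚ) := by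
          rw [div_pow, mul_pow, hρ, hrσ, ht]
          push_cast
          rw [← hden]
          rw [pow_succ, pow_mul]
          field_simp
          ring
        have h6 : IsSquare ((2 * (σ.num.natAbs * σ.den) : ℕ) : ℚ) :=
          ⟨ρ * σ.den / |σ| ^ t, by rw [← h5, sq]⟩
        rw [Rat.isSquare_natCast_iff] at h6
        obtain ⟨d, hd⟩ := h6
        apply h4
        refine ⟨(d : ℤ), ?_⟩
        have h7 : ((d : ℤ)) * d = 2 * ((σ.num.natAbs : ℤ) * σ.den) := by exact_mod_cast hd.symm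
        have h8 : (σ.num.natAbs : ℤ) ^ 2 = -b := by rw [Int.natAbs_sq]; exact e1
        calc (d : ℤ) ^ 4 = ((d : ℤ) * d) ^ 2 := by ring
          _ = 4 * ((σ.num.natAbs : ℤ) ^ 2 * (σ.den : ℤ) ^ 2) := by rw [h7]; ring
          _ = 4 * (-b * a) := by rw [h8, e2]
          _ = -4 * a * b := by ring
      · push Not at hsq
        apply irr_two
        · intro r hr
          have : 0 ≤ r ^ 2 := sq_nonneg r
          linarith
        · exact hsq
    · have hypos : 0 < (b : ℚ) / a := div_pos (by exact_mod_cast hbpos) haq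
      have hτpos : 0 < ((b : ℚ) / a) ^ n := by positivity
      apply irr_two
      · exact hnr 2 Nat.prime_two h2q
      · intro r hr
        have : 0 ≤ r ^ 2 := sq_nonneg r
        linarith
  rw [mul_comm]
  apply irr_odd (by positivity) h3 hw
  intro p hp hpw r hr
  have hp2 : p ≠ 2 := by
    rintro rfl
    exact (Nat.not_even_iff_odd.2 hw) (even_iff_two_dvd.2 hpw)
  have hpq : p ∣ 2 ^ s * w := Dvd.dvd.mul_left hpw _
  rcases neg_one_pow_eq_or ℚ (2 ^ s) with hs1 | hs1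
  · rw [hs1, one_mul] at hr
    exact hnr' p hp hp2 hpq r hr
  · rw [hs1, neg_one_mul, neg_neg] at hr
    exact hnr p hp hpq r hr

end Pool.Agent.Helper53.GE
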