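import Mathlib
import Pool.Agent.Helper53.GD.Det

set_option autoImplicit false

namespace Pool.Agent.Helper53.GE

open Finset Matrix Polynomial Pool.Agent.Helper53.GD

section

set_option linter.unusedSectionVars false

variable {q : ℕ} [NeZero q]

/-- the matrix of the multiplication by `∑ w a X ^ a` modulo `X ^ q - τ` -/
def twR {R : Type} [CommRing R] (w : Fin q → R) (τ : R) : Matrix (Fin q) (Fin q) R :=
  fun j l => τ ^ (if l ≤ j then 0 else 1) * w (j - l)

lemma det_ne_zeroK {K : Type} [Field K] (w : Fin q → K) (τ : K)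
    (hirr : Irreducible (X ^ q - C τ : K[X])) (hw : w ≠ 0) : (twR w τ).det ≠ 0 := by
  intro hdet
  obtain ⟨z, hz, hMz⟩ := Matrix.exists_mulVec_eq_zero_iff.2 hdet
  have hq : q ≠ 0 := NeZero.ne q
  have hfact : Fact (Irreducible (X ^ q - C τ : K[X])) := ⟨hirr⟩
  have hα : (AdjoinRoot.root (X ^ q - C τ : K[X])) ^ q = AdjoinRoot.of (X ^ q - C τ : K[X]) τ := by
    have h1 := AdjoinRoot.eval₂_root (X ^ q - C τ : K[X])
    rw [eval₂_sub, eval₂_X_pow, eval₂_C, sub_eq_zero] at h1
    exact h1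
  have hev : ∀ v : Fin q → K, v ≠ 0 → (∑ a, AdjoinRoot.of (X ^ q - C τ : K[X]) (v a) *
      (AdjoinRoot.root (X ^ q - C τ : K[X])) ^ (a : ℕ)) ≠ 0 := by
    intro v hv h0
    have h1 : AdjoinRoot.mk (X ^ q - C τ : K[X]) (∑ a : Fin q, C (v a) * X ^ (a : ℕ)) = 0 := by
      rw [map_sum, ← h0]
      apply Finset.sum_congr rfl
      intro a _
      rw [map_mul, map_pow, AdjoinRoot.mk_C, AdjoinRoot.mk_X]
    rw [AdjoinRoot.mk_eq_zero] at h1
    have hp : (∑ a : Fin q, C (v a) * X ^ (a : ℕ) : K[X]) ≠ 0 := by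
      intro hp
      apply hv
      funext a
      have h2 := congrArg (fun p => coeff p (a : ℕ)) hp
      simp only [finsetSum_coeff, coeff_C_mul_X_pow, coeff_zero] at h2
      rw [Finset.sum_eq_single a] at h2
      · simpa using h2
      · intro b _ hb
        rw [if_neg]
        intro h
        exact hb (Fin.ext h.symm)
      · intro h; exact absurd (Finset.mem_univ _) h
    have h3 := Polynomial.degree_le_of_dvd h1 hp
    rw [degree_X_pow_sub_C (Nat.pos_of_ne_zero hq)] at h3
    have h4 : (∑ a : Fin q, C (v a) * X ^ (a : ℕ) : K[X]).degree < (q : WithBot ℕ) := by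
      refine lt_of_le_of_lt (Polynomial.degree_sum_le _ _) ?_
      rw [Finset.sup_lt_iff (by exact WithBot.bot_lt_coe q)]
      intro a _
      refine lt_of_le_of_lt (Polynomial.degree_C_mul_X_pow_le _ _) ?_
      exact_mod_cast a.isLt
    exact absurd (lt_of_le_of_lt h3 h4) (lt_irrefl _)
  have hid : ∀ l : Fin q, (∑ a, AdjoinRoot.of (X ^ q - C τ : K[X]) (w a) *
      (AdjoinRoot.root (X ^ q - C τ : K[X])) ^ (a : ℕ)) *
      (AdjoinRoot.root (X ^ q - C τ : K[X])) ^ (l : ℕ) =
      ∑ j, AdjoinRoot.of (X ^ q - C τ : K[X]) (twR w τ j l) *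
        (AdjoinRoot.root (X ^ q - C τ : K[X])) ^ (j : ℕ) := by
    intro l
    rw [Finset.sum_mul, ← Equiv.sum_comp (Equiv.subRight l)]
    apply Finset.sum_congr rfl
    intro j _
    simp only [Equiv.subRight_apply, twR]
    rw [mul_assoc, ← pow_add, val_sub, pow_add, pow_mul, hα, map_mul, map_pow]
    ring
  have hz0 : (∑ a, AdjoinRoot.of (X ^ q - C τ : K[X]) (w a) *
      (AdjoinRoot.root (X ^ q - C τ : K[X])) ^ (a : ℕ)) *
      (∑ l, AdjoinRoot.of (X ^ q - C τ : K[X]) (z l) *
        (AdjoinRoot.root (X ^ q - C τ : K[X])) ^ (l : ℕ)) = 0 := by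
    rw [Finset.mul_sum]
    have h1 : ∀ l : Fin q, (∑ a, AdjoinRoot.of (X ^ q - C τ : K[X]) (w a) *
        (AdjoinRoot.root (X ^ q - C τ : K[X])) ^ (a : ℕ)) *
        (AdjoinRoot.of (X ^ q - C τ : K[X]) (z l) *
        (AdjoinRoot.root (X ^ q - C τ : K[X])) ^ (l : ℕ)) =
        ∑ j, AdjoinRoot.of (X ^ q - C τ : K[X]) (twR w τ j l * z l) *
        (AdjoinRoot.root (X ^ q - C τ : K[X])) ^ (j : ℕ) := by
      intro l
      have h2 := hid l
      calc _ = AdjoinRoot.of (X ^ q - C τ : K[X]) (z l) *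
            ((∑ a, AdjoinRoot.of (X ^ q - C τ : K[X]) (w a) *
            (AdjoinRoot.root (X ^ q - C τ : K[X])) ^ (a : ℕ)) *
            (AdjoinRoot.root (X ^ q - C τ : K[X])) ^ (l : ℕ)) := by ring
        _ = _ := by
          rw [h2, Finset.mul_sum]
          apply Finset.sum_congr rfl
          intro j _
          rw [map_mul]; ring
    rw [Finset.sum_congr rfl (fun l _ => h1 l), Finset.sum_comm]
    apply Finset.sum_eq_zero
    intro j _
    rw [← Finset.sum_mul, ← map_sum]
    have h3 := congrFun hMz j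
    simp only [Matrix.mulVec, dotProduct, Pi.zero_apply] at h3
    rw [h3, map_zero, zero_mul]
  rcases mul_eq_zero.1 hz0 with h | h
  · exact hev w hw h
  · exact hev z hz h

/-- sums of the entries with values in the same class -/
lemma sum_perm_le (K : Fin q → ℤ) (hK : ∀ a, 0 ≤ K a) :
    ∑ σ : Equiv.Perm (Fin q), ∏ i, K (σ i - i) ≤ (∑ a, K a) ^ q := by
  classical
  have hinj : Function.Injective (fun σ : Equiv.Perm (Fin q) => (σ : Fin q → Fin q)) :=
    DFunLike.coe_injective
  calc ∑ σ : Equiv.Perm (Fin q), ∏ i, K (σ i - i)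
      = ∑ g ∈ (Finset.univ : Finset (Equiv.Perm (Fin q))).image
          (fun σ : Equiv.Perm (Fin q) => (σ : Fin q → Fin q)), ∏ i, K (g i - i) := by
        rw [Finset.sum_image (fun a _ b _ hab => hinj hab)]
    _ ≤ ∑ g ∈ Fintype.piFinset (fun _ : Fin q => (Finset.univ : Finset (Fin q))), ∏ i, K (g i - i) := by
        apply Finset.sum_le_sum_of_subset_of_nonneg
        · intro g _
          simp
        · intro g _ _
          exact Finset.prod_nonneg (fun i _ => hK _)
    _ = ∏ i : Fin q, ∑ j, K (j - i) := by rw [Finset.prod_univ_sum]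
    _ = ∏ i : Fin q, ∑ a, K a := by
        apply Finset.prod_congr rfl
        intro i _
        exact Equiv.sum_comp (Equiv.subRight i) K
    _ = (∑ a, K a) ^ q := by rw [Finset.prod_const, Finset.card_univ, Fintype.card_fin]

/-- the determinant is a polynomial in `t` of small degree and with small coefficients -/
theorem expand {n r : ℕ} {ε : ℤ} (hε : |ε| = 1) {ι : Type} (s : Finset ι) (c : ι → ℤ)
    (κ E : ι → ℕ) (a : ι → Fin q) (hlow : ∀ i ∈ s, n * (a i : ℕ) ≤ q * E i)
    (hup : ∀ i ∈ s, q * E i ≤ n * (a i : ℕ) + r) :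
    ∃ P : ℤ[X], P.natDegree ≤ r ∧ ∑ j ∈ range (r + 1), |P.coeff j| ≤ (∑ i ∈ s, |c i|) ^ q ∧
      ∀ (R : Type) [CommRing R] (t τ : R), τ * t ^ n = ε →
        (twR (fun b => ∑ i ∈ s.filter (fun i => a i = b), (c i : R) * (ε : R) ^ (κ i) * t ^ (E i))
          τ).det = aeval t P := by
  classical
  let J : Finset (Σ _ : Equiv.Perm (Fin q), (Fin q → ι)) :=
    (Finset.univ : Finset (Equiv.Perm (Fin q))).sigma
      (fun σ => Fintype.piFinset (fun i => s.filter (fun l => a l = σ i - i)))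
  let χ : Equiv.Perm (Fin q) → ℕ := fun σ => ∑ i, (if i ≤ σ i then 0 else 1)
  let m : (Σ _ : Equiv.Perm (Fin q), (Fin q → ι)) → ℤ := fun p =>
    ((Equiv.Perm.sign p.1 : ℤˣ) : ℤ) * (ε ^ (χ p.1) * ∏ i, (c (p.2 i) * ε ^ (κ (p.2 i))))
  let A : (Σ _ : Equiv.Perm (Fin q), (Fin q → ι)) → ℕ := fun p => ∑ i, E (p.2 i) - n * χ p.1
  have hJ : ∀ p ∈ J, ∀ i, p.2 i ∈ s ∧ a (p.2 i) = p.1 i - i := by
    intro p hp i
    simp only [J, Finset.mem_sigma, Fintype.mem_piFinset, Finset.mem_filter] at hp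
    exact hp.2 i
  have hχ : ∀ σ : Equiv.Perm (Fin q), ∑ i, ((σ i - i : Fin q) : ℕ) = q * χ σ := by
    intro σ
    have h1 : ∑ i, (((σ i - i : Fin q) : ℕ) + (i : ℕ)) =
        ∑ i, (((σ i : Fin q) : ℕ) + q * (if i ≤ σ i then 0 else 1)) :=
      Finset.sum_congr rfl (fun i _ => val_sub (σ i) i)
    rw [Finset.sum_add_distrib, Finset.sum_add_distrib,
      Equiv.sum_comp σ (fun j : Fin q => (j : ℕ)), ← Finset.mul_sum] at h1
    simp only [χ]
    omega
  have hq0 : 0 < q := Nat.pos_of_ne_zero (NeZero.ne q)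
  have hexp : ∀ p ∈ J, n * χ p.1 ≤ ∑ i, E (p.2 i) ∧ ∑ i, E (p.2 i) ≤ n * χ p.1 + r := by
    intro p hp
    have e1 : q * (n * χ p.1) = ∑ i, n * ((p.1 i - i : Fin q) : ℕ) := by
      rw [← Finset.mul_sum, hχ]; ring
    constructor
    · have h1 : q * (n * χ p.1) ≤ q * ∑ i, E (p.2 i) := by
        rw [e1, Finset.mul_sum]
        apply Finset.sum_le_sum
        intro i _
        obtain ⟨h2, h3⟩ := hJ p hp i
        rw [← h3]
        exact hlow _ h2
      exact Nat.le_of_mul_le_mul_left h1 hq0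
    · have h1 : q * ∑ i, E (p.2 i) ≤ q * (n * χ p.1 + r) := by
        rw [Nat.mul_add, e1, Finset.mul_sum]
        calc ∑ i, q * E (p.2 i) ≤ ∑ i : Fin q, (n * ((p.1 i - i : Fin q) : ℕ) + r) := by
              apply Finset.sum_le_sum
              intro i _
              obtain ⟨h2, h3⟩ := hJ p hp i
              rw [← h3]
              exact hup _ h2
          _ = ∑ i, n * ((p.1 i - i : Fin q) : ℕ) + q * r := by
              rw [Finset.sum_add_distrib, Finset.sum_const, Finset.card_univ, Fintype.card_fin,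
                smul_eq_mul]
      exact Nat.le_of_mul_le_mul_left h1 hq0
  have hA : ∀ p ∈ J, A p ≤ r := by
    intro p hp
    have := (hexp p hp).2
    simp only [A]
    omega
  refine ⟨∑ p ∈ J, C (m p) * X ^ (A p), ?_, ?_, ?_⟩
  · apply Polynomial.natDegree_sum_le_of_forall_le
    intro p hp
    exact (natDegree_C_mul_X_pow_le _ _).trans (hA p hp)
  · -- the coefficients
    have h1 : ∀ j, |(∑ p ∈ J, C (m p) * X ^ (A p) : ℤ[X]).coeff j| ≤
        ∑ p ∈ J, if A p = j then |m p| else 0 := by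
      intro j
      rw [finsetSum_coeff]
      refine (Finset.abs_sum_le_sum_abs _ _).trans (Finset.sum_le_sum ?_)
      intro p _
      rw [coeff_C_mul_X_pow]
      by_cases h : j = A p
      · rw [if_pos h, if_pos h.symm]
      · rw [if_neg h, if_neg (fun h' => h h'.symm), abs_zero]
    have h2 : ∑ j ∈ range (r + 1), ∑ p ∈ J, (if A p = j then |m p| else 0) = ∑ p ∈ J, |m p| := by
      rw [Finset.sum_comm]
      apply Finset.sum_congr rfl
      intro p hp
      rw [Finset.sum_ite_eq, if_pos]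
      rw [Finset.mem_range]
      have := hA p hp
      omega
    have h3 : ∑ p ∈ J, |m p| = ∑ σ : Equiv.Perm (Fin q),
        ∏ i, ∑ l ∈ s.filter (fun l => a l = σ i - i), |c l| := by
      simp only [J]
      rw [Finset.sum_sigma]
      apply Finset.sum_congr rfl
      intro σ _
      rw [Finset.prod_univ_sum]
      apply Finset.sum_congr rfl
      intro g _
      simp only [m]
      rw [abs_mul, abs_mul, Finset.abs_prod, abs_pow, hε, one_pow, one_mul]
      have h4 : |((Equiv.Perm.sign σ : ℤˣ) : ℤ)| = 1 := by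
        rcases Int.units_eq_one_or (Equiv.Perm.sign σ) with hs | hs <;> rw [hs] <;> simp
      rw [h4, one_mul]
      apply Finset.prod_congr rfl
      intro i _
      rw [abs_mul, abs_pow, hε, one_pow, mul_one]
    have h5 : ∑ b : Fin q, ∑ l ∈ s.filter (fun l => a l = b), |c l| = ∑ l ∈ s, |c l| :=
      Finset.sum_fiberwise s a (fun l => |c l|)
    calc ∑ j ∈ range (r + 1), |(∑ p ∈ J, C (m p) * X ^ (A p) : ℤ[X]).coeff j|
        ≤ ∑ j ∈ range (r + 1), ∑ p ∈ J, (if A p = j then |m p| else 0) :=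
          Finset.sum_le_sum (fun j _ => h1 j)
      _ = ∑ σ : Equiv.Perm (Fin q), ∏ i, ∑ l ∈ s.filter (fun l => a l = σ i - i), |c l| := by
          rw [h2, h3]
      _ ≤ (∑ b : Fin q, ∑ l ∈ s.filter (fun l => a l = b), |c l|) ^ q :=
          sum_perm_le (fun b => ∑ l ∈ s.filter (fun l => a l = b), |c l|)
            (fun b => Finset.sum_nonneg (fun l _ => abs_nonneg _))
      _ = (∑ l ∈ s, |c l|) ^ q := by rw [h5]
  · intro R _ t τ hτ
    rw [Matrix.det_apply', map_sum]
    simp only [J]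
    rw [Finset.sum_sigma]
    apply Finset.sum_congr rfl
    intro σ _
    have h1 : ∏ i, twR (fun b => ∑ i ∈ s.filter (fun i => a i = b),
        (c i : R) * (ε : R) ^ (κ i) * t ^ (E i)) τ (σ i) i =
        τ ^ (χ σ) * ∑ g ∈ Fintype.piFinset (fun i => s.filter (fun l => a l = σ i - i)),
          ∏ i, ((c (g i) : R) * (ε : R) ^ (κ (g i)) * t ^ (E (g i))) := by
      simp only [twR]
      rw [Finset.prod_mul_distrib, Finset.prod_pow_eq_pow_sum, Finset.prod_univ_sum]
    rw [h1, Finset.mul_sum, Finset.mul_sum]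
    apply Finset.sum_congr rfl
    intro g hg
    have hgJ : (⟨σ, g⟩ : Σ _ : Equiv.Perm (Fin q), (Fin q → ι)) ∈ J := by
      simp only [J, Finset.mem_sigma]
      exact ⟨Finset.mem_univ _, hg⟩
    have h2 := (hexp _ hgJ).1
    simp only at h2
    rw [map_mul, map_pow, aeval_X, aeval_C, algebraMap_int_eq, eq_intCast]
    simp only [m, A, Int.cast_mul, Int.cast_pow, Int.cast_prod]
    have h3 : ∏ i, ((c (g i) : R) * (ε : R) ^ (κ (g i)) * t ^ (E (g i))) =
        (∏ i, ((c (g i) : R) * (ε : R) ^ (κ (g i)))) * t ^ (∑ i, E (g i)) := by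
      rw [Finset.prod_mul_distrib, Finset.prod_pow_eq_pow_sum]
    have h4 : t ^ (∑ i, E (g i)) = t ^ (n * χ σ) * t ^ (∑ i, E (g i) - n * χ σ) := by
      rw [← pow_add]; congr 1; omega
    have h5 : τ ^ (χ σ) * t ^ (n * χ σ) = (ε : R) ^ (χ σ) := by
      rw [pow_mul, ← mul_pow, hτ]
    rw [h3, h4]
    calc ((Equiv.Perm.sign σ : ℤˣ) : ℤ) * (τ ^ (χ σ) *
          ((∏ i, ((c (g i) : R) * (ε : R) ^ (κ (g i)))) * (t ^ (n * χ σ) *
            t ^ (∑ i, E (g i) - n * χ σ))))
        = ((Equiv.Perm.sign σ : ℤˣ) : ℤ) * ((τ ^ (χ σ) * t ^ (n * χ σ)) *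
          ∏ i, ((c (g i) : R) * (ε : R) ^ (κ (g i)))) * t ^ (∑ i, E (g i) - n * χ σ) := by ring
      _ = _ := by rw [h5]

end

/-- **The abstract core.** A polynomial of small degree, with small coefficients, in the ideal
generated by `T ^ n - ε` and a sparse polynomial. -/
theorem core {n q r : ℕ} (hq : 1 ≤ q) {ε : ℤ} (hε : ε = 1 ∨ ε = -1) {ι : Type} (s : Finset ι)
    (c : ι → ℤ) (e α : ι → ℕ) (h1 : ∀ i ∈ s, n * α i ≤ q * e i)
    (h2 : ∀ i ∈ s, q * e i ≤ n * α i + r) :
    ∃ P : ℤ[X], P.natDegree ≤ r ∧ ∑ j ∈ range (r + 1), |P.coeff j| ≤ (∑ i ∈ s, |c i|) ^ q ∧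
      (∀ (R : Type) [CommRing R] (t : R), t ^ n = ε → ∑ i ∈ s, (c i : R) * t ^ (e i) = 0 →
        aeval t P = 0) ∧
      (∀ (K : Type) [Field K] (t : K), t ≠ 0 → Irreducible (X ^ q - C ((ε : K) / t ^ n) : K[X]) →
        aeval t P = 0 → ∑ i ∈ s, (c i : K) * (ε : K) ^ (α i / q) * t ^ (e i - n * (α i / q)) = 0) := by
  classical
  have hne : NeZero q := ⟨by omega⟩
  have hε1 : |ε| = 1 := by rcases hε with h | h <;> rw [h] <;> simp
  have hε2 : ε * ε = 1 := by rcases hε with h | h <;> rw [h] <;> norm_num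
  have hκ : ∀ i ∈ s, n * (α i / q) ≤ e i := by
    intro i hi
    have h3 := h1 i hi
    have h4 : q * (α i / q) ≤ α i := Nat.mul_div_le _ _
    have h5 : q * (n * (α i / q)) ≤ q * e i := by
      calc q * (n * (α i / q)) = n * (q * (α i / q)) := by ring
        _ ≤ n * α i := Nat.mul_le_mul_left _ h4
        _ ≤ q * e i := h3
    exact Nat.le_of_mul_le_mul_left h5 (by omega)
  let E : ι → ℕ := fun i => e i - n * (α i / q)
  let a : ι → Fin q := fun i => ⟨α i % q, Nat.mod_lt _ (by omega)⟩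
  have hE : ∀ i ∈ s, q * E i + n * (q * (α i / q)) = q * e i := by
    intro i hi
    have h3 := hκ i hi
    simp only [E]
    have h4 : q * (e i - n * (α i / q)) + q * (n * (α i / q)) = q * e i := by
      rw [← Nat.mul_add, Nat.sub_add_cancel h3]
    calc _ = q * (e i - n * (α i / q)) + q * (n * (α i / q)) := by ring
      _ = _ := h4
  have hmod : ∀ i, n * α i = n * (α i % q) + n * (q * (α i / q)) := by
    intro i
    rw [← Nat.mul_add, Nat.mod_add_div]
  obtain ⟨P, hP1, hP2, hP3⟩ := expand (n := n) (r := r) hε1 s c (fun i => α i / q) E a (by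
      intro i hi
      have h3 := h1 i hi
      have h4 := hE i hi
      have h5 := hmod i
      simp only [a]
      omega) (by
      intro i hi
      have h3 := h2 i hi
      have h4 := hE i hi
      have h5 := hmod i
      simp only [a]
      omega)
  have hsum : ∀ (R : Type) [CommRing R] (t : R),
      ∑ b : Fin q, ∑ i ∈ s.filter (fun i => a i = b), (c i : R) * (ε : R) ^ (α i / q) * t ^ (E i) =
      ∑ i ∈ s, (c i : R) * (ε : R) ^ (α i / q) * t ^ (E i) := by
    intro R _ t
    exact Finset.sum_fiberwise s a (fun i => (c i : R) * (ε : R) ^ (α i / q) * t ^ (E i))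
  refine ⟨P, hP1, hP2, ?_, ?_⟩
  · intro R _ t ht h0
    have hεR : (ε : R) * (ε : R) = 1 := by
      have : ((ε * ε : ℤ) : R) = ((1 : ℤ) : R) := by rw [hε2]
      push_cast at this
      exact this
    have hdet := hP3 R t 1 (by rw [one_mul]; exact ht)
    rw [← hdet]
    set w : Fin q → R := fun b => ∑ i ∈ s.filter (fun i => a i = b),
      (c i : R) * (ε : R) ^ (α i / q) * t ^ (E i) with hw
    have hw0 : ∑ b, w b = 0 := by
      rw [hw, hsum R t, ← h0]
      apply Finset.sum_congr rfl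
      intro i hi
      have h3 : t ^ (e i) = t ^ (E i) * (t ^ n) ^ (α i / q) := by
        rw [← pow_mul, ← pow_add]
        congr 1
        have := hκ i hi
        simp only [E]
        omega
      rw [h3, ht]; ring
    have hrow : (twR w 1) *ᵥ (fun _ => (1 : R)) = 0 := by
      funext j
      simp only [Matrix.mulVec, dotProduct, twR, one_pow, one_mul, mul_one, Pi.zero_apply]
      rw [← hw0]
      exact Equiv.sum_comp (Equiv.subLeft j) w
    have h4 : (twR w 1).adjugate *ᵥ ((twR w 1) *ᵥ (fun _ => (1 : R))) = fun _ => (twR w 1).det := by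
      rw [Matrix.mulVec_mulVec, Matrix.adjugate_mul]
      ext j
      simp [Matrix.mulVec, dotProduct, Matrix.smul_apply, Matrix.one_apply]
    rw [hrow, Matrix.mulVec_zero] at h4
    have h5 := congrFun h4 (0 : Fin q)
    simpa using h5.symm
  · intro K _ t ht hirr h0
    have hdet := hP3 K t ((ε : K) / t ^ n) (by field_simp)
    rw [h0] at hdet
    by_contra hne0
    apply det_ne_zeroK _ _ hirr ?_ hdet
    intro hw
    apply hne0
    rw [← hsum K t]
    apply Finset.sum_eq_zero
    intro b _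
    exact congrFun hw b

end Pool.Agent.Helper53.GE
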