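import Mathlib
import Pool.Agent.Helper53.GE.Poly
import Pool.Agent.Helper53.GD.Main

set_option autoImplicit false

namespace Pool.Agent.Helper53.GE

open Finset Polynomial Pool.Agent.Helper53.GD

/-- homogeneous values of a polynomial -/
lemma hom_eval {R : Type} [CommRing R] (P : ℤ[X]) {r : ℕ} (hP : P.natDegree ≤ r) {a b t : R}
    (h : t * b = a) : b ^ r * aeval t P = ∑ j ∈ range (r + 1), (P.coeff j : R) * a ^ j * b ^ (r - j) := by
  rw [aeval_eq_sum_range' (Nat.lt_succ_of_le hP), Finset.mul_sum]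
  apply Finset.sum_congr rfl
  intro j hj
  rw [Finset.mem_range] at hj
  have h1 : b ^ r = b ^ j * b ^ (r - j) := by rw [← pow_add]; congr 1; omega
  rw [h1, ← h, mul_pow, zsmul_eq_mul]
  ring

/-- **Divisors of `a ^ n - b ^ n` and sparse forms.** -/
theorem pair {a b : ℤ} (ha : 2 ≤ a) (hb0 : b ≠ 0) (hba : |b| ≤ a) (hcop : IsCoprime a b)
    {n k H N : ℕ} (hn : 1 ≤ n) (hN : 1 ≤ N)
    (hirr : ∀ q : ℕ, 1 ≤ q → q ≤ N ^ (k - 1) →
      Irreducible (X ^ q - C (((b : ℚ) / a) ^ n) : ℚ[X]))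
    {F : ℕ} (s : Finset ℕ) (c : ℕ → ℤ) (hs : s.card ≤ k) (hc : ∀ i ∈ s, |c i| ≤ H)
    (hF : ∀ i ∈ s, i ≤ F) {x : ℤ} (hx : x ∣ a ^ n - b ^ n)
    (hxz : x ∣ ∑ i ∈ s, c i * a ^ i * b ^ (F - i)) :
    (a ^ n - b ^ n) ∣ ∑ i ∈ s, c i * a ^ i * b ^ (F - i) ∨
      |x| ≤ (((k * H : ℕ) : ℤ) * a) ^ (N ^ (k - 1)) * a ^ (2 * n / N) := by
  classical
  -- coprimality
  have hcopG : IsCoprime (a ^ n - b ^ n) a ∧ IsCoprime (a ^ n - b ^ n) b := by
    constructor
    · have h1 : IsCoprime (b ^ n) a := (IsCoprime.pow_left hcop.symm)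
      have h2 : IsCoprime (-(b ^ n)) a := h1.neg_left
      have h3 : a ^ n - b ^ n = -(b ^ n) + a * a ^ (n - 1) := by
        have : a ^ n = a * a ^ (n - 1) := by rw [← pow_succ']; congr 1; omega
        rw [this]; ring
      rw [h3]
      exact IsCoprime.add_mul_left_left h2 _
    · have h1 : IsCoprime (a ^ n) b := (IsCoprime.pow_left hcop)
      have h3 : a ^ n - b ^ n = a ^ n + b * (-(b ^ (n - 1))) := by
        have : b ^ n = b * b ^ (n - 1) := by rw [← pow_succ']; congr 1; omega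
        rw [this]; ring
      rw [h3]
      exact IsCoprime.add_mul_left_left h1 _
  have hxa : IsCoprime x a := IsCoprime.of_isCoprime_of_dvd_left hcopG.1 hx
  have hxb : IsCoprime x b := IsCoprime.of_isCoprime_of_dvd_left hcopG.2 hx
  rcases s.eq_empty_or_nonempty with hemp | hne
  · left
    rw [hemp, Finset.sum_empty]
    exact dvd_zero _
  have hk : 1 ≤ k := le_trans (Finset.card_pos.2 hne) hs
  obtain ⟨e₀, he₀, hmin⟩ := Finset.exists_min_image s (fun i => i) hne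
  let U : Finset ℕ := (s.erase e₀).image (fun i => i - e₀)
  have hU : U.card ≤ k - 1 := by
    refine Finset.card_image_le.trans ?_
    rw [Finset.card_erase_of_mem he₀]
    omega
  obtain ⟨q, α, hq1, hq2, hα⟩ := dirichletN U hn hN
  have hq3 : q ≤ N ^ (k - 1) := hq2.trans (Nat.pow_le_pow_right hN hU)
  let α' : ℕ → ℕ := fun i => if i = e₀ then 0 else α (i - e₀)
  have hα' : ∀ i ∈ s, |(N : ℤ) * ((q : ℤ) * ((i - e₀ : ℕ) : ℤ) - n * α' i)| < n := by
    intro i hi
    by_cases h : i = e₀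
    · simp only [α', h, if_true, Nat.sub_self, Nat.cast_zero, mul_zero, sub_zero, abs_zero]
      exact_mod_cast hn
    · simp only [α', h, if_false]
      exact hα (i - e₀) (Finset.mem_image_of_mem _ (Finset.mem_erase.2 ⟨h, hi⟩))
  let S : ℕ := (n + N * q - 1) / (N * q)
  have hNq : 0 < N * q := Nat.mul_pos (by omega) (by omega)
  have hS1 : n ≤ N * q * S := by
    have h3 := Nat.div_add_mod (n + N * q - 1) (N * q)
    have h4 := Nat.mod_lt (n + N * q - 1) hNq
    simp only [S]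
    omega
  have hS2 : N * q * S ≤ n + N * q - 1 := Nat.mul_div_le _ _
  let e' : ℕ → ℕ := fun i => i - e₀ + S
  let r : ℕ := 2 * n / N + q
  have hlow : ∀ i ∈ s, n * α' i ≤ q * e' i := by
    intro i hi
    have h3 := hα' i hi
    rw [abs_lt] at h3
    have h4 : (n : ℤ) ≤ N * q * S := by exact_mod_cast hS1
    have h5 : (0 : ℤ) < N := by exact_mod_cast hN
    have h6 : (0 : ℤ) < N * ((q : ℤ) * ((i - e₀ : ℕ) : ℤ) + q * S - n * α' i) := by
      have h7 : (N : ℤ) * ((q : ℤ) * ((i - e₀ : ℕ) : ℤ) + q * S - n * α' i) =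
          (N : ℤ) * ((q : ℤ) * ((i - e₀ : ℕ) : ℤ) - n * α' i) + N * q * S := by ring
      rw [h7]; linarith [h3.1]
    have h8 : (0 : ℤ) < (q : ℤ) * ((i - e₀ : ℕ) : ℤ) + q * S - n * α' i :=
      lt_of_mul_lt_mul_left (by rw [mul_zero]; exact h6) h5.le
    have h9 : ((n * α' i : ℕ) : ℤ) ≤ ((q * (i - e₀ + S) : ℕ) : ℤ) := by
      push_cast; linarith
    exact_mod_cast h9
  have hup : ∀ i ∈ s, q * e' i ≤ n * α' i + r := by
    intro i hi
    have h3 := hα' i hi
    rw [abs_lt] at h3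
    have h4 : (N : ℤ) * q * S ≤ n + N * q - 1 := by
      have h5 : N * q * S + 1 ≤ n + N * q := by omega
      have : ((N * q * S + 1 : ℕ) : ℤ) ≤ ((n + N * q : ℕ) : ℤ) := by exact_mod_cast h5
      push_cast at this
      linarith
    have h5 : (0 : ℤ) < N := by exact_mod_cast hN
    have h6 : (N : ℤ) * ((q : ℤ) * ((i - e₀ : ℕ) : ℤ) + q * S - n * α' i - q) < 2 * n := by
      have h7 : (N : ℤ) * ((q : ℤ) * ((i - e₀ : ℕ) : ℤ) + q * S - n * α' i - q) =
          (N : ℤ) * ((q : ℤ) * ((i - e₀ : ℕ) : ℤ) - n * α' i) + N * q * S - N * q := by ring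
      rw [h7]; linarith [h3.2]
    have h8 : (q : ℤ) * ((i - e₀ : ℕ) : ℤ) + q * S - n * α' i - q ≤ ((2 * n / N : ℕ) : ℤ) := by
      push_cast
      rw [Int.le_ediv_iff_mul_le h5]
      linarith
    have h9 : ((q * (i - e₀ + S) : ℕ) : ℤ) ≤ ((n * α' i + (2 * n / N + q) : ℕ) : ℤ) := by
      push_cast at h8 ⊢
      linarith
    exact_mod_cast h9
  obtain ⟨P, hP1, hP2, hP3, hP4⟩ := core (n := n) (q := q) (r := r) hq1
    (Or.inl rfl : (1 : ℤ) = 1 ∨ (1 : ℤ) = -1) s c e' α' hlow hup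
  -- the shifted form
  let G : ℕ := F + S
  have hz'' : a ^ e₀ * ∑ i ∈ s, c i * a ^ (e' i) * b ^ (G - e' i) =
      a ^ S * b ^ e₀ * ∑ i ∈ s, c i * a ^ i * b ^ (F - i) := by
    rw [Finset.mul_sum, Finset.mul_sum]
    apply Finset.sum_congr rfl
    intro i hi
    have h3 := hmin i hi
    have h4 := hF i hi
    have e1 : a ^ e₀ * a ^ (e' i) = a ^ S * a ^ i := by
      rw [← pow_add, ← pow_add]; congr 1; simp only [e']; omega
    have e2 : b ^ (G - e' i) = b ^ e₀ * b ^ (F - i) := by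
      rw [← pow_add]; congr 1; simp only [e', G]; omega
    calc a ^ e₀ * (c i * a ^ (e' i) * b ^ (G - e' i))
        = c i * (a ^ e₀ * a ^ (e' i)) * b ^ (G - e' i) := by ring
      _ = a ^ S * b ^ e₀ * (c i * a ^ i * b ^ (F - i)) := by rw [e1, e2]; ring
  have hxz'' : x ∣ ∑ i ∈ s, c i * a ^ (e' i) * b ^ (G - e' i) := by
    have h3 : x ∣ a ^ e₀ * ∑ i ∈ s, c i * a ^ (e' i) * b ^ (G - e' i) := by
      rw [hz'']
      exact Dvd.dvd.mul_left hxz _
    exact (IsCoprime.pow_right hxa).dvd_of_dvd_mul_left h3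
  -- modulo `x`
  let m : ℕ := x.natAbs
  have hmod : ∀ y : ℤ, ((y : ℤ) : ZMod m) = 0 ↔ x ∣ y := by
    intro y
    rw [ZMod.intCast_zmod_eq_zero_iff_dvd]
    exact Int.natAbs_dvd
  obtain ⟨u, hu⟩ : ∃ u : ZMod m, ((b : ℤ) : ZMod m) * u = 1 := by
    obtain ⟨v, w, hvw⟩ := hxb
    refine ⟨((w : ℤ) : ZMod m), ?_⟩
    have h3 : (((b * w - 1 : ℤ)) : ZMod m) = 0 := (hmod _).2 ⟨-v, by linarith⟩
    push_cast at h3
    exact sub_eq_zero.1 h3
  let t : ZMod m := ((a : ℤ) : ZMod m) * u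
  have htb : t * ((b : ℤ) : ZMod m) = ((a : ℤ) : ZMod m) := by
    simp only [t]
    rw [mul_assoc, mul_comm u, hu, mul_one]
  have hbu : IsUnit ((b : ℤ) : ZMod m) := IsUnit.of_mul_eq_one _ hu
  have htn : t ^ n = ((1 : ℤ) : ZMod m) := by
    have h3 : (((a ^ n - b ^ n : ℤ)) : ZMod m) = 0 := (hmod _).2 hx
    push_cast at h3
    have h4 : t ^ n * ((b : ℤ) : ZMod m) ^ n = 1 * ((b : ℤ) : ZMod m) ^ n := by
      rw [← mul_pow, htb, one_mul]
      exact sub_eq_zero.1 h3
    rw [Int.cast_one]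
    exact (hbu.pow n).mul_right_cancel h4
  have hG : ∀ i ∈ s, e' i ≤ G := by
    intro i hi
    have := hF i hi
    simp only [e', G]; omega
  have htsum : ∑ i ∈ s, ((c i : ℤ) : ZMod m) * t ^ (e' i) = 0 := by
    have h3 : ((b : ℤ) : ZMod m) ^ G * ∑ i ∈ s, ((c i : ℤ) : ZMod m) * t ^ (e' i) =
        ((∑ i ∈ s, c i * a ^ (e' i) * b ^ (G - e' i) : ℤ) : ZMod m) := by
      rw [Finset.mul_sum]
      push_cast
      apply Finset.sum_congr rfl
      intro i hi
      have h4 : ((b : ℤ) : ZMod m) ^ G = ((b : ℤ) : ZMod m) ^ (e' i) * ((b : ℤ) : ZMod m) ^ (G - e' i) := by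
        rw [← pow_add]; congr 1; have := hG i hi; omega
      rw [h4, ← htb, mul_pow]
      ring
    rw [(hmod _).2 hxz''] at h3
    exact ((hbu.pow G).mul_right_eq_zero).1 h3
  have hPt := hP3 (ZMod m) t htn htsum
  let D : ℤ := ∑ j ∈ range (r + 1), P.coeff j * a ^ j * b ^ (r - j)
  have hxD : x ∣ D := by
    apply (hmod _).1
    have h3 := hom_eval (R := ZMod m) P hP1 htb
    rw [hPt, mul_zero] at h3
    simp only [D]
    push_cast
    exact h3.symm
  by_cases hD0 : D = 0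
  · left
    -- the rational numbers
    have haq : (a : ℚ) ≠ 0 := by exact_mod_cast (by omega : a ≠ 0)
    have hbq : (b : ℚ) ≠ 0 := by exact_mod_cast hb0
    have h3 := hom_eval (R := ℚ) P hP1 (a := a) (b := b) (t := (a : ℚ) / b) (by field_simp)
    have h4 : ∑ j ∈ range (r + 1), ((P.coeff j : ℤ) : ℚ) * (a : ℚ) ^ j * (b : ℚ) ^ (r - j) = 0 := by
      have : ((D : ℤ) : ℚ) = 0 := by rw [hD0]; simp
      simp only [D] at this
      push_cast at this
      exact this
    rw [h4] at h3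
    have hPq : aeval ((a : ℚ) / b) P = 0 := by
      rcases mul_eq_zero.1 h3 with h | h
      · exact absurd h (pow_ne_zero _ hbq)
      · exact h
    have hirr' : Irreducible (X ^ q - C (((1 : ℤ) : ℚ) / ((a : ℚ) / b) ^ n) : ℚ[X]) := by
      have e1 : ((1 : ℤ) : ℚ) / ((a : ℚ) / b) ^ n = ((b : ℚ) / a) ^ n := by
        rw [div_pow, div_pow]; push_cast; field_simp
      rw [e1]
      exact hirr q hq1 hq3
    have h5 := hP4 ℚ ((a : ℚ) / b) (div_ne_zero haq hbq) hirr' hPq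
    -- clear denominators
    have hκ : ∀ i ∈ s, n * (α' i / q) ≤ e' i := by
      intro i hi
      have h6 := hlow i hi
      have h7 : q * (α' i / q) ≤ α' i := Nat.mul_div_le _ _
      have h8 : q * (n * (α' i / q)) ≤ q * e' i := by
        calc q * (n * (α' i / q)) = n * (q * (α' i / q)) := by ring
          _ ≤ n * α' i := Nat.mul_le_mul_left _ h7
          _ ≤ q * e' i := h6
      exact Nat.le_of_mul_le_mul_left h8 (by omega)
    have h6 : ∑ i ∈ s, c i * a ^ (e' i - n * (α' i / q)) * b ^ (G - (e' i - n * (α' i / q))) = 0 := by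
      have h7 : ((∑ i ∈ s, c i * a ^ (e' i - n * (α' i / q)) * b ^ (G - (e' i - n * (α' i / q))) : ℤ) : ℚ)
          = (b : ℚ) ^ G * ∑ i ∈ s, ((c i : ℤ) : ℚ) * ((1 : ℤ) : ℚ) ^ (α' i / q) *
            ((a : ℚ) / b) ^ (e' i - n * (α' i / q)) := by
        rw [Finset.mul_sum]
        push_cast
        apply Finset.sum_congr rfl
        intro i hi
        have h8 : (b : ℚ) ^ G = (b : ℚ) ^ (e' i - n * (α' i / q)) * (b : ℚ) ^ (G - (e' i - n * (α' i / q))) := by
          rw [← pow_add]; congr 1; have := hG i hi; omega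
        rw [h8, div_pow, one_pow]
        field_simp
      rw [h5, mul_zero] at h7
      exact_mod_cast h7
    have h9 : (a ^ n - b ^ n) ∣ ∑ i ∈ s, c i * a ^ (e' i) * b ^ (G - e' i) := by
      have h10 : ∑ i ∈ s, c i * a ^ (e' i) * b ^ (G - e' i) =
          ∑ i ∈ s, (c i * a ^ (e' i) * b ^ (G - e' i) -
            c i * a ^ (e' i - n * (α' i / q)) * b ^ (G - (e' i - n * (α' i / q)))) := by
        rw [Finset.sum_sub_distrib, h6, sub_zero]
      rw [h10]
      apply Finset.dvd_sum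
      intro i hi
      have h11 := hκ i hi
      have h12 := hG i hi
      have e1 : a ^ (e' i) = a ^ (e' i - n * (α' i / q)) * (a ^ n) ^ (α' i / q) := by
        rw [← pow_mul, ← pow_add]; congr 1; omega
      have e2 : b ^ (G - (e' i - n * (α' i / q))) = b ^ (G - e' i) * (b ^ n) ^ (α' i / q) := by
        rw [← pow_mul, ← pow_add]; congr 1; omega
      rw [e1, e2]
      have e3 : c i * (a ^ (e' i - n * (α' i / q)) * (a ^ n) ^ (α' i / q)) * b ^ (G - e' i) -
          c i * a ^ (e' i - n * (α' i / q)) * (b ^ (G - e' i) * (b ^ n) ^ (α' i / q)) =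
          c i * a ^ (e' i - n * (α' i / q)) * b ^ (G - e' i) *
            ((a ^ n) ^ (α' i / q) - (b ^ n) ^ (α' i / q)) := by ring
      rw [e3]
      exact Dvd.dvd.mul_left (sub_dvd_pow_sub_pow _ _ _) _
    have h13 : (a ^ n - b ^ n) ∣ a ^ S * b ^ e₀ * ∑ i ∈ s, c i * a ^ i * b ^ (F - i) := by
      rw [← hz'']
      exact Dvd.dvd.mul_left h9 _
    exact ((IsCoprime.pow_right hcopG.1).mul_right (IsCoprime.pow_right hcopG.2)).dvd_of_dvd_mul_left h13
  · right
    have h3 : |x| ≤ |D| := Int.le_of_dvd (abs_pos.2 hD0) ((abs_dvd_abs x D).2 hxD)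
    have ha0 : 0 ≤ a := by linarith
    have h4 : |D| ≤ (∑ j ∈ range (r + 1), |P.coeff j|) * a ^ r := by
      simp only [D]
      rw [Finset.sum_mul]
      refine (Finset.abs_sum_le_sum_abs _ _).trans (Finset.sum_le_sum ?_)
      intro j hj
      rw [Finset.mem_range] at hj
      rw [abs_mul, abs_mul, abs_pow, abs_pow, abs_of_nonneg ha0, mul_assoc]
      apply mul_le_mul_of_nonneg_left _ (abs_nonneg _)
      calc a ^ j * |b| ^ (r - j) ≤ a ^ j * a ^ (r - j) :=
            mul_le_mul_of_nonneg_left (pow_le_pow_left₀ (abs_nonneg _) hba _) (by positivity)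
        _ = a ^ r := by rw [← pow_add]; congr 1; omega
    have hsum : ∑ i ∈ s, |c i| ≤ ((k * H : ℕ) : ℤ) := by
      calc ∑ i ∈ s, |c i| ≤ ∑ i ∈ s, (H : ℤ) := Finset.sum_le_sum hc
        _ = (s.card : ℤ) * H := by rw [Finset.sum_const, nsmul_eq_mul]
        _ ≤ ((k * H : ℕ) : ℤ) := by
          push_cast
          exact mul_le_mul_of_nonneg_right (by exact_mod_cast hs) (by positivity)
    have hsum0 : 0 ≤ ∑ i ∈ s, |c i| := Finset.sum_nonneg (fun i _ => abs_nonneg _)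
    have h5 : |x| ≤ (((k * H : ℕ) : ℤ) * a) ^ q * a ^ (2 * n / N) := by
      calc |x| ≤ (∑ j ∈ range (r + 1), |P.coeff j|) * a ^ r := h3.trans h4
        _ ≤ (∑ i ∈ s, |c i|) ^ q * a ^ r := mul_le_mul_of_nonneg_right hP2 (by positivity)
        _ ≤ ((k * H : ℕ) : ℤ) ^ q * a ^ r :=
            mul_le_mul_of_nonneg_right (pow_le_pow_left₀ hsum0 hsum _) (by positivity)
        _ = (((k * H : ℕ) : ℤ) * a) ^ q * a ^ (2 * n / N) := by
            simp only [r]
            rw [pow_add, mul_pow]; ring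
    refine h5.trans ?_
    apply mul_le_mul_of_nonneg_right _ (by positivity)
    rcases Nat.eq_zero_or_pos (k * H) with h0 | h0
    · rw [h0]
      have h2 : N ^ (k - 1) ≠ 0 := by positivity
      simp only [Nat.cast_zero, zero_mul]
      rw [zero_pow (by omega), zero_pow h2]
    · have h6 : (1 : ℤ) ≤ ((k * H : ℕ) : ℤ) * a := by
        have : (1 : ℤ) ≤ ((k * H : ℕ) : ℤ) := by exact_mod_cast h0
        nlinarith
      exact pow_le_pow_right₀ h6 hq3

end Pool.Agent.Helper53.GE
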