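import Mathlib
import Pool.Agent.Helper53.GD.Asym
import Pool.Agent.Helper53.GE.Pair
import Pool.Agent.Helper53.GE.IrrPair

set_option autoImplicit false

namespace Pool.Agent.Helper53.GE

open Finset Polynomial Filter Pool.Agent.Helper53.GD

/-- `z` is a value at `(a, b)` of a binary form with at most `k` terms and coefficients at most `H` -/
def SparseForm (a b : ℤ) (k H : ℕ) (z : ℤ) : Prop :=
  ∃ (F : ℕ) (s : Finset ℕ) (c : ℕ → ℤ), s.card ≤ k ∧ (∀ i ∈ s, i ≤ F ∧ |c i| ≤ H) ∧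
    z = ∑ i ∈ s, c i * a ^ i * b ^ (F - i)

/-- **The explicit form.** -/
theorem pair_explicit {a : ℕ} {b : ℤ} (hab : Admissible (a : ℤ) b) {n k H N : ℕ} (hn : n.Prime)
    (hN : 1 ≤ N) (hNn : N ^ (k - 1) < n) {x z : ℤ} (hz : SparseForm a b k H z)
    (hx : x ∣ (a : ℤ) ^ n - b ^ n) (hxz : x ∣ z) :
    ((a : ℤ) ^ n - b ^ n) ∣ z ∨
      |x| ≤ ((k * H * a : ℕ) : ℤ) ^ (N ^ (k - 1)) * (a : ℤ) ^ (2 * n / N) := by
  obtain ⟨F, s, c, hs, hc, rfl⟩ := hz
  have h1 := hab.2.1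
  have h2 := hab.2.2.1
  have h3 := hab.2.2.2.1
  have h := pair (a := (a : ℤ)) (b := b) (by omega) (ne_zero_of_adm hab)
    (abs_le.2 ⟨by omega, by omega⟩) hab.1 (n := n) (k := k) (H := H) (N := N) hn.one_lt.le hN ?_
    (F := F) s c hs (fun i hi => (hc i hi).2) (fun i hi => (hc i hi).1) hx hxz
  · push_cast at h ⊢
    exact h
  · intro q hq1 hq2
    apply irr_pair hab hq1
    intro p hp hpq hpn
    rw [(Nat.prime_dvd_prime_iff_eq hp hn).1 hpn] at hpq
    have := Nat.le_of_dvd hq1 hpq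
    omega

/-- **The asymptotic form.** -/
theorem pair_asym {a : ℕ} {b : ℤ} (hab : Admissible (a : ℤ) b) (H : ℕ) {δ : ℝ} (hδ : 0 < δ) :
    ∃ c : ℝ, 0 < c ∧ ∃ n₀ : ℕ, ∀ n : ℕ, n₀ ≤ n → n.Prime →
      ∀ (k : ℕ) (x z : ℤ), x ∣ (a : ℤ) ^ n - b ^ n → (a : ℝ) ^ (δ * n) ≤ |(x : ℝ)| → x ∣ z →
        ¬ ((a : ℤ) ^ n - b ^ n) ∣ z → SparseForm a b k H z → c * Real.log n < k := by
  have hb : 2 ≤ a := by
    have h1 := hab.2.1
    have h2 : (1 : ℤ) < (a : ℤ) := h1
    omega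
  have hb1 : (1 : ℝ) < a := by exact_mod_cast (by omega : 1 < a)
  have hlb : 0 < Real.log a := Real.log_pos hb1
  obtain ⟨N, hN2, hNδ⟩ : ∃ N : ℕ, 2 ≤ N ∧ 4 / δ ≤ N := by
    refine ⟨⌈4 / δ⌉₊ + 2, by omega, ?_⟩
    push_cast
    linarith [Nat.le_ceil (4 / δ)]
  have hNpos : (0 : ℝ) < N := by exact_mod_cast (by omega : 0 < N)
  have hlN : 0 < Real.log N := Real.log_pos (by exact_mod_cast (by omega : 1 < N))
  obtain ⟨n₁, hn₁⟩ := Filter.eventually_atTop.1 (ev_log (Real.log (((H + 1) * a : ℕ) : ℝ))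
    (δ / 2 * Real.log a) (by positivity))
  refine ⟨1 / (2 * Real.log N), by positivity, max n₁ 1, ?_⟩
  intro n hn hnp k x z hx hxδ hxz hnot hz
  have hL2 : 2 ≤ n := hnp.two_le
  by_contra hcon
  push Not at hcon
  have hn1 : 1 ≤ n := le_trans (le_max_right _ _) hn
  have hev := hn₁ n (le_trans (le_max_left _ _) hn)
  have hk : 1 ≤ k := by
    by_contra hk
    have hk0 : k = 0 := by omega
    obtain ⟨F, s, c, hs, _, hzs⟩ := hz
    rw [hk0] at hs
    have hs0 : s = ∅ := Finset.card_eq_zero.1 (by omega)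
    apply hnot
    rw [hzs, hs0, Finset.sum_empty]
    exact dvd_zero _
  have hLpos : (0 : ℝ) < n := by exact_mod_cast (by omega : 0 < n)
  -- `N ^ (2 k) ≤ n`
  have hNk : N ^ (2 * k) ≤ n := by
    have h1 : (k : ℝ) * (2 * Real.log N) ≤ Real.log n := by
      have h2 : (k : ℝ) ≤ Real.log n / (2 * Real.log N) := by
        calc (k : ℝ) ≤ 1 / (2 * Real.log N) * Real.log n := hcon
          _ = _ := by ring
      rwa [le_div_iff₀ (by positivity)] at h2
    have h3 : Real.log ((N : ℝ) ^ (2 * k)) ≤ Real.log n := by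
      rw [Real.log_pow]
      push_cast
      linarith
    have h4 : (N : ℝ) ^ (2 * k) ≤ n := (Real.log_le_log_iff (by positivity) hLpos).1 h3
    exact_mod_cast h4
  have hM : N ^ (k - 1) < n := by
    calc N ^ (k - 1) < N ^ (2 * k) := Nat.pow_lt_pow_right (by omega) (by omega)
      _ ≤ n := hNk
  rcases pair_explicit hab hnp (by omega : 1 ≤ N) hM hz hx hxz with h | h
  · exact hnot h
  -- the bound
  have hxr : |(x : ℝ)| ≤ ((k * H * a : ℕ) : ℝ) ^ (N ^ (k - 1)) * (a : ℝ) ^ (2 * n / N) := by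
    have h1 : ((|x| : ℤ) : ℝ) ≤ ((((k * H * a : ℕ) : ℤ) ^ (N ^ (k - 1)) * (a : ℤ) ^ (2 * n / N) : ℤ) : ℝ) := by
      exact_mod_cast h
    push_cast at h1 ⊢
    exact h1
  have hpos : 0 < (a : ℝ) ^ (δ * n) := Real.rpow_pos_of_pos (by linarith) _
  have hkH : 1 ≤ k * H * a := by
    by_contra h0
    have h1 : k * H * a = 0 := by omega
    rw [h1, Nat.cast_zero, zero_pow (by positivity), zero_mul] at hxr
    linarith
  have hlog : δ * n * Real.log a ≤ (N : ℝ) ^ (k - 1) * Real.log ((k * H * a : ℕ) : ℝ) +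
      ((2 * n / N : ℕ) : ℝ) * Real.log a := by
    have h1 : Real.log ((a : ℝ) ^ (δ * n)) ≤
        Real.log (((k * H * a : ℕ) : ℝ) ^ (N ^ (k - 1)) * (a : ℝ) ^ (2 * n / N)) :=
      Real.log_le_log hpos (hxδ.trans hxr)
    have hkHr : (0 : ℝ) < ((k * H * a : ℕ) : ℝ) := by exact_mod_cast hkH
    rw [Real.log_rpow (by linarith), Real.log_mul (by positivity) (by positivity), Real.log_pow,
      Real.log_pow] at h1
    push_cast at h1 ⊢
    linarith
  have hdiv : ((2 * n / N : ℕ) : ℝ) ≤ δ / 2 * n := by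
    have h1 : ((2 * n / N : ℕ) : ℝ) ≤ ((2 * n : ℕ) : ℝ) / N := Nat.cast_div_le
    refine h1.trans ?_
    rw [div_le_iff₀ hNpos]
    rw [div_le_iff₀ hδ] at hNδ
    push_cast
    have h2 : (0 : ℝ) ≤ n := by positivity
    nlinarith
  have hMs : (N : ℝ) ^ (k - 1) ≤ Real.sqrt n := by
    apply Real.le_sqrt_of_sq_le
    have h1 : (N ^ (k - 1)) ^ 2 ≤ n := by
      calc (N ^ (k - 1)) ^ 2 = N ^ ((k - 1) * 2) := by rw [← pow_mul]
        _ ≤ N ^ (2 * k) := Nat.pow_le_pow_right (by omega) (by omega)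
        _ ≤ n := hNk
    exact_mod_cast h1
  have hkn : k ≤ n := by
    calc k ≤ 2 ^ k := (Nat.lt_two_pow_self).le
      _ ≤ N ^ k := Nat.pow_le_pow_left hN2 _
      _ ≤ N ^ (2 * k) := Nat.pow_le_pow_right (by omega) (by omega)
      _ ≤ n := hNk
  have hlk : Real.log ((k * H * a : ℕ) : ℝ) ≤ Real.log n + Real.log (((H + 1) * a : ℕ) : ℝ) := by
    have hnr : (0 : ℝ) < n := by exact_mod_cast hn1
    have hHb : (0 : ℝ) < (((H + 1) * a : ℕ) : ℝ) := by
      have : 0 < (H + 1) * a := Nat.mul_pos (by omega) (by omega)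
      exact_mod_cast this
    rw [← Real.log_mul hnr.ne' hHb.ne']
    apply Real.log_le_log (by exact_mod_cast hkH)
    have h1 : k * H * a ≤ n * ((H + 1) * a) := by
      calc k * H * a ≤ n * (H + 1) * a := Nat.mul_le_mul_right _ (Nat.mul_le_mul hkn (by omega))
        _ = _ := by ring
    exact_mod_cast h1
  have hlk0 : 0 ≤ Real.log ((k * H * a : ℕ) : ℝ) := Real.log_nonneg (by exact_mod_cast hkH)
  have hsq : Real.sqrt n * Real.sqrt n = n := Real.mul_self_sqrt (by positivity)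
  have hs0 : 0 < Real.sqrt n := Real.sqrt_pos.2 (by exact_mod_cast hn1)
  have h5 : (N : ℝ) ^ (k - 1) * Real.log ((k * H * a : ℕ) : ℝ) ≤
      Real.sqrt n * (Real.log n + Real.log (((H + 1) * a : ℕ) : ℝ)) :=
    mul_le_mul hMs hlk hlk0 hs0.le
  have h6 : Real.sqrt n * (Real.log n + Real.log (((H + 1) * a : ℕ) : ℝ)) <
      Real.sqrt n * (δ / 2 * Real.log a * Real.sqrt n) := mul_lt_mul_of_pos_left hev hs0
  have h7 : Real.sqrt n * (δ / 2 * Real.log a * Real.sqrt n) = δ / 2 * n * Real.log a := by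
    calc Real.sqrt n * (δ / 2 * Real.log a * Real.sqrt n) =
        δ / 2 * Real.log a * (Real.sqrt n * Real.sqrt n) := by ring
      _ = _ := by rw [hsq]; ring
  have h8 : ((2 * n / N : ℕ) : ℝ) * Real.log a ≤ δ / 2 * n * Real.log a :=
    mul_le_mul_of_nonneg_right hdiv hlb.le
  have h9 : δ * n * Real.log a = δ / 2 * n * Real.log a + δ / 2 * n * Real.log a := by ring
  linarith

end Pool.Agent.Helper53.GE
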