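import Mathlib
import Pool.Agent.Helper53.GD.IrrSq

set_option autoImplicit false

namespace Pool.Agent.Helper53.GE

open Polynomial IntermediateField Pool.Agent.Helper53.FF Pool.Agent.Helper53.GD

/-- a root of `X ^ 2 + A ^ 2` and its negative are no squares, if `2 A` and `- 2 A` are no squares -/
lemma no_sqrt' {K : Type} [Field K] {E : Type} [Field E]
    [Algebra K E] {A : K} (hneg : ∀ r : K, r ^ 2 ≠ -(A ^ 2)) (h2A : ∀ r : K, r ^ 2 ≠ 2 * A)
    (h2A' : ∀ r : K, r ^ 2 ≠ -(2 * A))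
    {x : E} (hx : minpoly K x = X ^ 2 - C (-(A ^ 2))) (e : K) (he : e = 1 ∨ e = -1) (y : K⟮x⟯)
    (hy : y ^ 2 = (algebraMap K K⟮x⟯ e) * AdjoinSimple.gen K x) : False := by
  have hint : IsIntegral K x := not_not.mp fun h ↦ by
    have h4 := congr_arg degree (hx.symm.trans (dif_neg h))
    rw [degree_X_pow_sub_C (by norm_num), degree_zero] at h4
    exact WithBot.natCast_ne_bot _ h4
  set g : K⟮x⟯ := AdjoinSimple.gen K x with hg
  have hg2 : g ^ 2 = algebraMap K K⟮x⟯ (-(A ^ 2)) := by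
    have h1 := minpoly.aeval K x
    rw [hx] at h1
    simp only [map_sub, map_pow, aeval_X, aeval_C] at h1
    apply Subtype.ext
    rw [hg]
    push_cast
    rw [sub_eq_zero] at h1
    simpa using h1
  -- the basis
  obtain ⟨f, hfdeg, hf⟩ := (adjoin.powerBasis hint).exists_eq_aeval y
  rw [adjoin.powerBasis_dim, hx, natDegree_X_pow_sub_C] at hfdeg
  rw [adjoin.powerBasis_gen, ← hg] at hf
  have hf2 : f = C (f.coeff 1) * X + C (f.coeff 0) := by
    apply Polynomial.eq_X_add_C_of_natDegree_le_one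
    omega
  have hyuv : y = algebraMap K K⟮x⟯ (f.coeff 0) + algebraMap K K⟮x⟯ (f.coeff 1) * g := by
    rw [hf]
    conv_lhs => rw [hf2]
    simp only [map_add, map_mul, aeval_C, aeval_X]
    ring
  set u := f.coeff 0
  set v := f.coeff 1
  have hsq : algebraMap K K⟮x⟯ (u ^ 2 - A ^ 2 * v ^ 2) + algebraMap K K⟮x⟯ (2 * u * v - e) * g = 0 := by
    have h1 : y ^ 2 = algebraMap K K⟮x⟯ (u ^ 2) + algebraMap K K⟮x⟯ (2 * u * v) * g +
        algebraMap K K⟮x⟯ (v ^ 2) * g ^ 2 := by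
      rw [hyuv]
      simp only [map_pow, map_mul, map_ofNat]
      ring
    rw [hy, hg2] at h1
    simp only [map_sub, map_mul, map_pow, map_neg] at h1 ⊢
    linear_combination -h1
  -- independence of `1, g`
  have hind : ∀ a c : K, algebraMap K K⟮x⟯ a + algebraMap K K⟮x⟯ c * g = 0 → a = 0 ∧ c = 0 := by
    intro a c h
    by_cases hc : c = 0
    · rw [hc] at h
      simp only [map_zero, zero_mul, add_zero] at h
      exact ⟨(map_eq_zero _).1 h, hc⟩
    · exfalso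
      have h1 : g = algebraMap K K⟮x⟯ (-a / c) := by
        rw [map_div₀, map_neg]
        have hc' : algebraMap K K⟮x⟯ c ≠ 0 := (_root_.map_ne_zero _).2 hc
        field_simp
        linear_combination h
      rw [h1, ← map_pow] at hg2
      have h2 : (-a / c) ^ 2 = -(A ^ 2) := (algebraMap K K⟮x⟯).injective hg2
      exact hneg _ h2
  obtain ⟨h1, h2⟩ := hind _ _ hsq
  have he0 : e ≠ 0 := by
    rcases he with h | h <;> rw [h]
    · exact one_ne_zero
    · exact neg_ne_zero.2 one_ne_zero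
  have hv : v ≠ 0 := by
    intro hv
    rw [hv, mul_zero, zero_sub] at h2
    exact he0 (neg_eq_zero.1 h2)
  have fin : ∀ e' : K, e' = 1 ∨ e' = -1 → 2 * A * v ^ 2 = e' → False := by
    intro e' he' h6
    rcases he' with h | h
    · apply h2A (1 / v)
      rw [h] at h6
      field_simp
      linear_combination -h6
    · apply h2A' (1 / v)
      rw [h] at h6
      field_simp
      linear_combination h6
  have h3 : (u - A * v) * (u + A * v) = 0 := by linear_combination h1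
  rcases mul_eq_zero.1 h3 with h4 | h4
  · apply fin e he
    linear_combination h2 - 2 * v * h4
  · apply fin (-e)
    · rcases he with h | h
      · right; rw [h]
      · left; rw [h, neg_neg]
    · linear_combination -h2 + 2 * v * h4

/-- `X ^ (2 ^ s) + A ^ 2` is irreducible if `2 A` and `- 2 A` are no squares -/
theorem irr_two_sq' {K : Type} [Field K] {A : K}
    (hneg : ∀ r : K, r ^ 2 ≠ -(A ^ 2)) (h2A : ∀ r : K, r ^ 2 ≠ 2 * A)
    (h2A' : ∀ r : K, r ^ 2 ≠ -(2 * A)) (s : ℕ) :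
    Irreducible (X ^ (2 ^ s) - C (-(A ^ 2)) : K[X]) := by
  rcases Nat.eq_zero_or_pos s with hs | hs
  · subst hs
    rw [pow_zero, pow_one]
    exact irreducible_X_sub_C _
  obtain ⟨t, rfl⟩ : ∃ t, s = t + 1 := ⟨s - 1, by omega⟩
  have h2 : Irreducible (X ^ 2 - C (-(A ^ 2)) : K[X]) :=
    X_pow_sub_C_irreducible_of_prime Nat.prime_two hneg
  rw [pow_succ]
  apply X_pow_mul_sub_C_irreducible h2
  intro E _ _ x hx
  apply irr_two
  · intro r hr
    exact no_sqrt' hneg h2A h2A' hx 1 (Or.inl rfl) r (by rw [hr]; simp)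
  · intro r hr
    exact no_sqrt' hneg h2A h2A' hx (-1) (Or.inr rfl) r (by rw [hr]; simp)

/-- a `p`-th root of `y ^ n` gives one of `y` -/
lemma pow_rootK {K : Type} [Field K] {y ρ : K} (hy : y ≠ 0) {p n : ℕ} (hp : p.Coprime n)
    (h : ρ ^ p = y ^ n) : ∃ σ : K, σ ^ p = y := by
  obtain ⟨u, v, huv⟩ := Nat.isCoprime_iff_coprime.2 hp
  refine ⟨y ^ u * ρ ^ v, ?_⟩
  calc (y ^ u * ρ ^ v) ^ p = y ^ (u * p) * (ρ ^ p) ^ v := by
        rw [mul_pow, ← zpow_natCast (y ^ u), ← zpow_mul, ← zpow_natCast (ρ ^ v), ← zpow_mul,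
          ← zpow_natCast ρ p, ← zpow_mul, mul_comm v]
    _ = y ^ (u * p) * y ^ (v * n) := by
        rw [h, ← zpow_natCast y n, ← zpow_mul, mul_comm v]
    _ = y ^ (u * p + v * n) := by rw [zpow_add₀ hy]
    _ = y := by rw [huv, zpow_one]

/-- roots of `± t ^ (- m)` for odd exponents -/
lemma no_odd_root {K : Type} [Field K] {t : K} (ht0 : t ≠ 0)
    (hroot : ∀ p : ℕ, p.Prime → p ≠ 2 → ∀ y : K, y ^ p ≠ t) {p m : ℕ} (hp : p.Prime) (hp2 : p ≠ 2)
    (hpm : ¬ p ∣ m) (r : K) (h : r ^ p = 1 / t ^ m ∨ r ^ p = -(1 / t ^ m)) : False := by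
  have hcop : p.Coprime m := (Nat.Prime.coprime_iff_not_dvd hp).2 hpm
  have h1 : ∃ ρ : K, ρ ^ p = t ^ m := by
    rcases h with h | h
    · refine ⟨r⁻¹, ?_⟩
      rw [inv_pow, h, one_div, inv_inv]
    · refine ⟨-r⁻¹, ?_⟩
      rw [(hp.odd_of_ne_two hp2).neg_pow, inv_pow, h, one_div, inv_neg, neg_neg, inv_inv]
  obtain ⟨ρ, hρ⟩ := h1
  obtain ⟨σ, hσ⟩ := pow_rootK ht0 hcop hρ
  exact hroot p hp hp2 σ hσ

/-- the two irreducibility statements -/
theorem irr_luc {K : Type} [Field K] (σ : K →+* ℝ) (Nm : K →* ℚ) (hNm : Nm 2 = 4)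
    (hNm' : Nm (-1) = 1) {t : K} (ht0 : t ≠ 0) (ht : Nm t = -1)
    (hroot : ∀ p : ℕ, p.Prime → p ≠ 2 → ∀ y : K, y ^ p ≠ t) {n q : ℕ} (hn : Odd n) (hq : 1 ≤ q)
    (hcop : ∀ p : ℕ, p.Prime → p ∣ q → ¬ p ∣ n) :
    Irreducible (X ^ q - C (((1 : ℤ) : K) / t ^ n) : K[X]) ∧
    Irreducible (X ^ q - C (((-1 : ℤ) : K) / t ^ (2 * n)) : K[X]) := by
  have hodd : (-1 : ℚ) ^ n = -1 := hn.neg_one_pow
  have hNt : Nm (t ^ n) = -1 := by rw [map_pow, ht, hodd]
  have hNi : Nm (1 / t ^ n) = -1 := by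
    have h1 : Nm (1 / t ^ n) * Nm (t ^ n) = 1 := by
      rw [← map_mul, one_div, inv_mul_cancel₀ (pow_ne_zero _ ht0), map_one]
    rw [hNt] at h1
    linarith
  obtain ⟨s, w, hw, rfl⟩ := Nat.exists_eq_two_pow_mul_odd (by omega : q ≠ 0)
  have hoddp : ∀ p : ℕ, p.Prime → p ∣ w → p ≠ 2 ∧ ¬ p ∣ n ∧ ¬ p ∣ 2 * n := by
    intro p hp hpw
    have hp2 : p ≠ 2 := by
      rintro rfl
      exact (Nat.not_even_iff_odd.2 hw) (even_iff_two_dvd.2 hpw)
    have h1 : ¬ p ∣ n := hcop p hp (Dvd.dvd.mul_left hpw _)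
    refine ⟨hp2, h1, ?_⟩
    intro h2
    rcases (Nat.Prime.dvd_mul hp).1 h2 with h3 | h3
    · exact hp2 ((Nat.prime_dvd_prime_iff_eq hp Nat.prime_two).1 h3)
    · exact h1 h3
  constructor
  · have e0 : ((1 : ℤ) : K) / t ^ n = 1 / t ^ n := by push_cast; rfl
    rw [e0]
    have h3 : Irreducible (X ^ (2 ^ s) - C (1 / t ^ n) : K[X]) := by
      apply irr_two
      · intro r hr
        have h1 : (Nm r) ^ 2 = -1 := by rw [← map_pow, hr, hNi]
        nlinarith [sq_nonneg (Nm r)]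
      · intro r hr
        have h1 : (Nm r) ^ 2 = -1 := by
          rw [← map_pow, hr, ← neg_one_mul, map_mul, hNm', hNi, one_mul]
        nlinarith [sq_nonneg (Nm r)]
    rw [mul_comm]
    apply irr_odd (by positivity) h3 hw
    intro p hp hpw r hr
    obtain ⟨a1, a2, a3⟩ := hoddp p hp hpw
    apply no_odd_root ht0 hroot hp a1 a2 r
    rcases neg_one_pow_eq_or K (2 ^ s) with hs1 | hs1
    · right; rw [hr, hs1, one_mul]
    · left; rw [hr, hs1, neg_one_mul, neg_neg]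
  · have e0 : ((-1 : ℤ) : K) / t ^ (2 * n) = -((1 / t ^ n) ^ 2) := by
      push_cast
      rw [div_pow, one_pow, ← pow_mul, mul_comm n 2]
      ring
    have h3 : Irreducible (X ^ (2 ^ s) - C (-((1 / t ^ n) ^ 2)) : K[X]) := by
      apply irr_two_sq'
      · intro r hr
        have h1 : (σ r) ^ 2 = -((σ (1 / t ^ n)) ^ 2) := by rw [← map_pow, hr, map_neg, map_pow]
        have h2 : σ (1 / t ^ n) ≠ 0 := by
          rw [_root_.map_ne_zero]
          exact one_div_ne_zero (pow_ne_zero _ ht0)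
        nlinarith [sq_nonneg (σ r), sq_pos_of_ne_zero h2]
      · intro r hr
        have h1 : (Nm r) ^ 2 = -4 := by
          rw [← map_pow, hr, map_mul, hNm, hNi]; norm_num
        nlinarith [sq_nonneg (Nm r)]
      · intro r hr
        have h1 : (Nm r) ^ 2 = -4 := by
          rw [← map_pow, hr, ← neg_one_mul, map_mul, map_mul, hNm, hNm', hNi]; norm_num
        nlinarith [sq_nonneg (Nm r)]
    rw [e0, mul_comm]
    apply irr_odd (by positivity) h3 hw
    intro p hp hpw r hr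
    obtain ⟨a1, a2, a3⟩ := hoddp p hp hpw
    apply no_odd_root ht0 hroot hp a1 a3 r
    have e1 : (1 / t ^ n) ^ 2 = 1 / t ^ (2 * n) := by
      rw [div_pow, one_pow, ← pow_mul, mul_comm n 2]
    rw [e1, neg_neg] at hr
    rcases neg_one_pow_eq_or K (2 ^ s) with hs1 | hs1
    · left; rw [hr, hs1, one_mul]
    · right; rw [hr, hs1, neg_one_mul]

end Pool.Agent.Helper53.GE
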