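import Mathlib
import Pool.Agent.Helper53.GE.Pair

set_option autoImplicit false

namespace Pool.Agent.Helper53.GE

open Finset Polynomial Pool.Agent.Helper53.GD

/-- the Lucas sequence `U_n (P, -1)` -/
def LU (P : ℤ) : ℕ → ℤ
  | 0 => 0
  | 1 => 1
  | (n + 2) => P * LU P (n + 1) + LU P n

/-- the companion sequence `V_n (P, -1)` -/
def LV (P : ℤ) : ℕ → ℤ
  | 0 => 2
  | 1 => P
  | (n + 2) => P * LV P (n + 1) + LV P n

lemma sq_root {R : Type} [CommRing R] {P : ℤ} {w w' : R} (h1 : w + w' = P) (h2 : w * w' = -1) :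
    w ^ 2 = 1 + P * w := by
  rw [← h1]
  linear_combination -h2

lemma LU_mul {R : Type} [CommRing R] {P : ℤ} {w w' : R} (h1 : w + w' = P) (h2 : w * w' = -1) :
    ∀ n : ℕ, (w - w') * (LU P n : R) = w ^ n - w' ^ n
  | 0 => by simp [LU]
  | 1 => by simp [LU]
  | (n + 2) => by
    have e1 := LU_mul h1 h2 n
    have e2 := LU_mul h1 h2 (n + 1)
    have s1 := sq_root h1 h2
    have s2 := sq_root (w := w') (w' := w) (by rw [add_comm]; exact h1) (by rw [mul_comm]; exact h2)
    simp only [LU]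
    push_cast
    have e3 : w ^ (n + 2) = (P : R) * w ^ (n + 1) + w ^ n := by
      rw [pow_add, s1, pow_succ]; ring
    have e4 : w' ^ (n + 2) = (P : R) * w' ^ (n + 1) + w' ^ n := by
      rw [pow_add, s2, pow_succ]; ring
    rw [e3, e4]
    linear_combination (P : R) * e2 + e1

lemma LV_eq {R : Type} [CommRing R] {P : ℤ} {w w' : R} (h1 : w + w' = P) (h2 : w * w' = -1) :
    ∀ n : ℕ, (LV P n : R) = w ^ n + w' ^ n
  | 0 => by simp [LV]; norm_num
  | 1 => by simp [LV, h1]
  | (n + 2) => by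
    have e1 := LV_eq h1 h2 n
    have e2 := LV_eq h1 h2 (n + 1)
    have s1 := sq_root h1 h2
    have s2 := sq_root (w := w') (w' := w) (by rw [add_comm]; exact h1) (by rw [mul_comm]; exact h2)
    simp only [LV]
    push_cast
    have e3 : w ^ (n + 2) = (P : R) * w ^ (n + 1) + w ^ n := by
      rw [pow_add, s1, pow_succ]; ring
    have e4 : w' ^ (n + 2) = (P : R) * w' ^ (n + 1) + w' ^ n := by
      rw [pow_add, s2, pow_succ]; ring
    rw [e3, e4]
    linear_combination (P : R) * e2 + e1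

/-- **The common part.** -/
theorem luc_core {O K : Type} [CommRing O] [Field K] (f : O →+* K) (hf : Function.Injective f)
    {P : ℤ} {w w' : O} (h1 : w + w' = P) (h2 : w * w' = -1)
    {n k H N : ℕ} (hn : 1 ≤ n) (hN : 1 ≤ N) {ε : ℤ} (hε : ε = 1 ∨ ε = -1)
    (hirr : ∀ q : ℕ, 1 ≤ q → q ≤ N ^ k → Irreducible (X ^ q - C ((ε : K) / (f w) ^ n) : K[X]))
    (s : Finset ℕ) (c : ℕ → ℤ) (hs : s.card ≤ k) (hc : ∀ i ∈ s, |c i| ≤ H)
    (I : Ideal O) (hI : w ^ n - (ε : O) ∈ I) (hz : ((∑ i ∈ s, c i * LU P i : ℤ) : O) ∈ I) :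
    (w ^ n - (ε : O)) ∣ (w - w') * ((∑ i ∈ s, c i * LU P i : ℤ) : O) ∨
      ∃ (q : ℕ) (Q : ℤ[X]), q ≤ N ^ k ∧ Q.natDegree ≤ 2 * n / N + q ∧
        ∑ j ∈ range (2 * n / N + q + 1), |Q.coeff j| ≤ ((2 * k * H : ℕ) : ℤ) ^ q ∧
        aeval w Q ∈ I ∧ aeval w Q ≠ 0 := by
  classical
  have hwu : IsUnit w := IsUnit.of_mul_eq_one (-w') (by rw [mul_neg, h2, neg_neg])
  obtain ⟨q, α, hq1, hq2, hα⟩ := dirichletN s hn hN
  have hq3 : q ≤ N ^ k := hq2.trans (Nat.pow_le_pow_right hN hs)
  have hNq : 0 < N * q := Nat.mul_pos (by omega) (by omega)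
  obtain ⟨S, hS1, hS2⟩ : ∃ S : ℕ, n ≤ N * q * S ∧ N * q * S ≤ n + N * q - 1 := by
    refine ⟨(n + N * q - 1) / (N * q), ?_, Nat.mul_div_le _ _⟩
    have h3 := Nat.div_add_mod (n + N * q - 1) (N * q)
    have h4 := Nat.mod_lt (n + N * q - 1) hNq
    omega
  obtain ⟨L, hL⟩ : ∃ L : ℕ, ∀ i ∈ s, i + α i ≤ L := ⟨∑ i ∈ s, (i + α i), fun i hi =>
    Finset.single_le_sum (f := fun i => i + α i) (fun j _ => Nat.zero_le _) hi⟩
  have hL1 : ∀ i ∈ s, i ≤ n * L + S := by
    intro i hi
    have h3 := hL i hi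
    have h4 : L ≤ n * L := Nat.le_mul_of_pos_left _ (by omega)
    omega
  have hL2 : ∀ i ∈ s, α i ≤ q * L := by
    intro i hi
    have h3 := hL i hi
    have h4 : L ≤ q * L := Nat.le_mul_of_pos_left _ (by omega)
    omega
  let r : ℕ := 2 * n / N + q
  -- the two kinds of terms
  let c' : ℕ ⊕ ℕ → ℤ := Sum.elim c (fun i => -((-1) ^ i * c i))
  let e' : ℕ ⊕ ℕ → ℕ := Sum.elim (fun i => n * L + S + i) (fun i => n * L + S - i)
  let α' : ℕ ⊕ ℕ → ℕ := Sum.elim (fun i => q * L + α i) (fun i => q * L - α i)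
  have hN0 : (0 : ℤ) < N := by exact_mod_cast hN
  have hS3 : (n : ℤ) ≤ N * q * S := by exact_mod_cast hS1
  have hS4 : (N : ℤ) * q * S ≤ n + N * q - 1 := by
    have h5 : N * q * S + 1 ≤ n + N * q := by omega
    have : ((N * q * S + 1 : ℕ) : ℤ) ≤ ((n + N * q : ℕ) : ℤ) := by exact_mod_cast h5
    push_cast at this
    linarith
  have key : ∀ d : ℤ, |(N : ℤ) * d| < n → 0 ≤ q * S + d ∧ q * S + d ≤ r := by
    intro d hd
    rw [abs_lt] at hd
    constructor
    · have h6 : (0 : ℤ) < N * (q * S + d) := by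
        have h7 : (N : ℤ) * (q * S + d) = N * d + N * q * S := by ring
        rw [h7]; linarith [hd.1]
      exact (lt_of_mul_lt_mul_left (by rw [mul_zero]; exact h6) hN0.le).le
    · have h6 : (N : ℤ) * (q * S + d - q) < 2 * n := by
        have h7 : (N : ℤ) * (q * S + d - q) = N * d + N * q * S - N * q := by ring
        rw [h7]; linarith [hd.2]
      have h8 : (q : ℤ) * S + d - q ≤ ((2 * n / N : ℕ) : ℤ) := by
        push_cast
        rw [Int.le_ediv_iff_mul_le hN0]
        linarith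
      simp only [r]
      push_cast at h8 ⊢
      linarith
  have hlow : ∀ i ∈ s.disjSum s, n * α' i ≤ q * e' i := by
    intro i hi
    rw [Finset.mem_disjSum] at hi
    rcases hi with ⟨j, hj, rfl⟩ | ⟨j, hj, rfl⟩
    · have h3 := (key _ (hα j hj)).1
      simp only [α', e', Sum.elim_inl]
      have h4 : ((n * (q * L + α j) : ℕ) : ℤ) ≤ ((q * (n * L + S + j) : ℕ) : ℤ) := by
        push_cast
        linarith
      exact_mod_cast h4
    · have h3 := (key (-((q : ℤ) * j - n * α j)) (by rw [mul_neg, abs_neg]; exact hα j hj)).1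
      simp only [α', e', Sum.elim_inr]
      have h4 : ((n * (q * L - α j) : ℕ) : ℤ) ≤ ((q * (n * L + S - j) : ℕ) : ℤ) := by
        rw [Nat.cast_mul, Nat.cast_mul, Nat.cast_sub (hL2 j hj), Nat.cast_sub (hL1 j hj)]
        push_cast
        linarith
      exact_mod_cast h4
  have hup : ∀ i ∈ s.disjSum s, q * e' i ≤ n * α' i + r := by
    intro i hi
    rw [Finset.mem_disjSum] at hi
    rcases hi with ⟨j, hj, rfl⟩ | ⟨j, hj, rfl⟩
    · have h3 := (key _ (hα j hj)).2
      simp only [α', e', Sum.elim_inl]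
      have h4 : ((q * (n * L + S + j) : ℕ) : ℤ) ≤ ((n * (q * L + α j) + r : ℕ) : ℤ) := by
        push_cast at h3 ⊢
        linarith
      exact_mod_cast h4
    · have h3 := (key (-((q : ℤ) * j - n * α j)) (by rw [mul_neg, abs_neg]; exact hα j hj)).2
      simp only [α', e', Sum.elim_inr]
      have h4 : ((q * (n * L + S - j) : ℕ) : ℤ) ≤ ((n * (q * L - α j) + r : ℕ) : ℤ) := by
        rw [Nat.cast_add, Nat.cast_mul, Nat.cast_mul, Nat.cast_sub (hL2 j hj),
          Nat.cast_sub (hL1 j hj)]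
        push_cast at h3 ⊢
        linarith
      exact_mod_cast h4
  obtain ⟨Q, hQ1, hQ2, hQ3, hQ4⟩ := core (n := n) (q := q) (r := r) hq1 hε (s.disjSum s) c' e' α' hlow hup
  -- the sparse identity
  have hsum : ∑ i ∈ s.disjSum s, (c' i : O) * w ^ (e' i) =
      w ^ (n * L + S) * ((w - w') * ((∑ i ∈ s, c i * LU P i : ℤ) : O)) := by
    rw [Finset.sum_disjSum, ← Finset.sum_add_distrib]
    push_cast
    rw [Finset.mul_sum, Finset.mul_sum]
    apply Finset.sum_congr rfl
    intro i hi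
    simp only [c', e', Sum.elim_inl, Sum.elim_inr]
    have h3 := hL1 i hi
    have h4 : w ^ (n * L + S) * w' ^ i = (-1) ^ i * w ^ (n * L + S - i) := by
      have h5 : w ^ (n * L + S) = w ^ (n * L + S - i) * w ^ i := by
        rw [← pow_add]; congr 1; omega
      rw [h5, mul_assoc, ← mul_pow, h2]
      ring
    push_cast
    calc (c i : O) * w ^ (n * L + S + i) + -((-1) ^ i * (c i : O)) * w ^ (n * L + S - i)
        = (c i : O) * (w ^ (n * L + S) * w ^ i - (-1) ^ i * w ^ (n * L + S - i)) := by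
          rw [pow_add]; ring
      _ = (c i : O) * (w ^ (n * L + S) * (w ^ i - w' ^ i)) := by rw [← h4]; ring
      _ = w ^ (n * L + S) * ((w - w') * ((c i : O) * (LU P i : O))) := by
          rw [← LU_mul h1 h2 i]; ring
  have hmem : aeval w Q ∈ I := by
    have h3 : aeval (Ideal.Quotient.mk I w) Q = 0 := by
      apply hQ3 (O ⧸ I) (Ideal.Quotient.mk I w)
      · have h4 : Ideal.Quotient.mk I (w ^ n - (ε : O)) = 0 := Ideal.Quotient.eq_zero_iff_mem.2 hI
        rw [map_sub, map_pow, map_intCast] at h4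
        exact sub_eq_zero.1 h4
      · have h4 : Ideal.Quotient.mk I (∑ i ∈ s.disjSum s, (c' i : O) * w ^ (e' i)) = 0 := by
          rw [Ideal.Quotient.eq_zero_iff_mem, hsum]
          exact Ideal.mul_mem_left _ _ (Ideal.mul_mem_left _ _ hz)
        rw [map_sum] at h4
        rw [← h4]
        apply Finset.sum_congr rfl
        intro i _
        rw [map_mul, map_pow, map_intCast]
    have h4 : aeval (Ideal.Quotient.mk I w) Q = Ideal.Quotient.mk I (aeval w Q) := by
      rw [aeval_eq_sum_range, aeval_eq_sum_range, map_sum]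
      apply Finset.sum_congr rfl
      intro j _
      rw [zsmul_eq_mul, zsmul_eq_mul, map_mul, map_pow, map_intCast]
    rw [h4] at h3
    exact Ideal.Quotient.eq_zero_iff_mem.1 h3
  by_cases hQ0 : aeval w Q = 0
  · left
    have hfw : f w ≠ 0 := by
      intro h0
      have h3 : f w * f w' = -1 := by rw [← map_mul, h2, map_neg, map_one]
      rw [h0, zero_mul] at h3
      exact absurd h3.symm (neg_ne_zero.2 one_ne_zero)
    have h3 : aeval (f w) Q = 0 := by
      have h4 : aeval (f w) Q = f (aeval w Q) := by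
        rw [aeval_eq_sum_range, aeval_eq_sum_range, map_sum]
        apply Finset.sum_congr rfl
        intro j _
        rw [zsmul_eq_mul, zsmul_eq_mul, map_mul, map_pow, map_intCast]
      rw [h4, hQ0, map_zero]
    have h5 := hQ4 K (f w) hfw (hirr q hq1 hq3) h3
    have h6 : ∑ i ∈ s.disjSum s, (c' i : O) * (ε : O) ^ (α' i / q) * w ^ (e' i - n * (α' i / q)) = 0 := by
      apply hf
      rw [map_zero, ← h5, map_sum]
      apply Finset.sum_congr rfl
      intro i _
      rw [map_mul, map_mul, map_pow, map_pow, map_intCast, map_intCast]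
    have h7 : (w ^ n - (ε : O)) ∣ ∑ i ∈ s.disjSum s, (c' i : O) * w ^ (e' i) := by
      have h10 : ∑ i ∈ s.disjSum s, (c' i : O) * w ^ (e' i) =
          ∑ i ∈ s.disjSum s, ((c' i : O) * w ^ (e' i) -
            (c' i : O) * (ε : O) ^ (α' i / q) * w ^ (e' i - n * (α' i / q))) := by
        rw [Finset.sum_sub_distrib, h6, sub_zero]
      rw [h10]
      apply Finset.dvd_sum
      intro i hi
      have h11 : n * (α' i / q) ≤ e' i := by
        have h6 := hlow i hi
        have h7 : q * (α' i / q) ≤ α' i := Nat.mul_div_le _ _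
        have h8 : q * (n * (α' i / q)) ≤ q * e' i := by
          calc q * (n * (α' i / q)) = n * (q * (α' i / q)) := by ring
            _ ≤ n * α' i := Nat.mul_le_mul_left _ h7
            _ ≤ q * e' i := h6
        exact Nat.le_of_mul_le_mul_left h8 (by omega)
      have e1 : w ^ (e' i) = w ^ (e' i - n * (α' i / q)) * (w ^ n) ^ (α' i / q) := by
        rw [← pow_mul, ← pow_add]; congr 1; omega
      have e2 : (c' i : O) * w ^ (e' i) -
            (c' i : O) * (ε : O) ^ (α' i / q) * w ^ (e' i - n * (α' i / q)) =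
          (c' i : O) * w ^ (e' i - n * (α' i / q)) * ((w ^ n) ^ (α' i / q) - (ε : O) ^ (α' i / q)) := by
        rw [e1]; ring
      rw [e2]
      exact Dvd.dvd.mul_left (sub_dvd_pow_sub_pow _ _ _) _
    rw [hsum] at h7
    exact ((hwu.pow _).dvd_mul_left).1 h7
  · right
    refine ⟨q, Q, hq3, hQ1, ?_, hmem, hQ0⟩
    refine hQ2.trans ?_
    have hsum0 : 0 ≤ ∑ i ∈ s.disjSum s, |c' i| := Finset.sum_nonneg (fun i _ => abs_nonneg _)
    apply pow_le_pow_left₀ hsum0
    rw [Finset.sum_disjSum, ← Finset.sum_add_distrib]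
    calc ∑ i ∈ s, (|c' (Sum.inl i)| + |c' (Sum.inr i)|) ≤ ∑ i ∈ s, (2 * H : ℤ) := by
          apply Finset.sum_le_sum
          intro i hi
          simp only [c', Sum.elim_inl, Sum.elim_inr]
          rw [abs_neg, abs_mul, abs_pow, abs_neg, abs_one, one_pow, one_mul]
          linarith [hc i hi]
      _ = (s.card : ℤ) * (2 * H) := by rw [Finset.sum_const, nsmul_eq_mul]
      _ ≤ (k : ℤ) * (2 * H) := mul_le_mul_of_nonneg_right (by exact_mod_cast hs) (by positivity)
      _ = ((2 * k * H : ℕ) : ℤ) := by push_cast; ring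

end Pool.Agent.Helper53.GE
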