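import Mathlib
import Pool.Agent.Helper53.GE.Luc
import Pool.Agent.Helper53.GE.IrrLuc

set_option autoImplicit false

namespace Pool.Agent.Helper53.GE

open Finset Polynomial
open scoped QuadraticAlgebra

/-- the integers `x + y ω` with `ω ^ 2 = 1 + P ω` -/
abbrev OO (P : ℤ) : Type := QuadraticAlgebra ℤ 1 P

/-- the numbers `x + y ω` with rational `x, y` -/
abbrev KK (P : ℤ) : Type := QuadraticAlgebra ℚ 1 (P : ℚ)

/-- the larger root of `X ^ 2 = P X + 1` -/
noncomputable def al (P : ℤ) : ℝ := (P + Real.sqrt (P ^ 2 + 4)) / 2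

/-- the smaller root of `X ^ 2 = P X + 1` -/
noncomputable def be (P : ℤ) : ℝ := (P - Real.sqrt (P ^ 2 + 4)) / 2

lemma al_add (P : ℤ) : al P + be P = P := by unfold al be; ring

lemma al_mul (P : ℤ) : al P * be P = -1 := by
  unfold al be
  have h : Real.sqrt ((P : ℝ) ^ 2 + 4) ^ 2 = (P : ℝ) ^ 2 + 4 := Real.sq_sqrt (by positivity)
  linear_combination -h / 4

lemma al_sq (P : ℤ) : al P ^ 2 = 1 + P * al P := by
  rw [← al_add P]
  linear_combination -al_mul P

lemma be_sq (P : ℤ) : be P ^ 2 = 1 + P * be P := by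
  rw [← al_add P]
  linear_combination -al_mul P

lemma al_gt {P : ℤ} (hP : 1 ≤ P) : 1 < al P := by
  unfold al
  have h1 : (1 : ℝ) ≤ P := by exact_mod_cast hP
  have h2 : (2 : ℝ) < Real.sqrt ((P : ℝ) ^ 2 + 4) := by
    apply Real.lt_sqrt_of_sq_lt
    nlinarith
  linarith

lemma al_lt {P : ℤ} (hP : P = 1 ∨ P = 2) : al P < 3 := by
  unfold al
  have h0 : (P : ℝ) ≤ 2 ∧ (1 : ℝ) ≤ P := by
    rcases hP with h | h <;> rw [h] <;> norm_num
  have h2 : Real.sqrt ((P : ℝ) ^ 2 + 4) < 4 := by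
    rw [Real.sqrt_lt' (by norm_num)]
    nlinarith
  linarith

lemma be_abs {P : ℤ} (hP : 1 ≤ P) : |be P| ≤ 1 := by
  have h1 := al_gt hP
  have h2 := al_mul P
  have h3 : be P = -1 / al P := by field_simp; linarith
  rw [h3, abs_div, abs_neg, abs_one, abs_of_pos (by linarith), div_le_one (by linarith)]
  exact h1.le

/-- evaluation at a real root -/
noncomputable def evO (P : ℤ) (x : ℝ) (hx : x ^ 2 = 1 + P * x) : OO P →+* ℝ where
  toFun z := z.re + z.im * x
  map_one' := by simp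
  map_zero' := by simp
  map_add' z w := by simp; ring
  map_mul' z w := by
    simp only [QuadraticAlgebra.re_mul, QuadraticAlgebra.im_mul]
    push_cast
    linear_combination -(z.im : ℝ) * w.im * hx

/-- evaluation at a real root -/
noncomputable def evK (P : ℤ) (x : ℝ) (hx : x ^ 2 = 1 + P * x) : KK P →+* ℝ where
  toFun z := z.re + z.im * x
  map_one' := by simp
  map_zero' := by simp
  map_add' z w := by simp; ring
  map_mul' z w := by
    simp only [QuadraticAlgebra.re_mul, QuadraticAlgebra.im_mul]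
    push_cast
    linear_combination -(z.im : ℝ) * w.im * hx

/-- the inclusion -/
def incl (P : ℤ) : OO P →+* KK P where
  toFun z := ⟨z.re, z.im⟩
  map_one' := by ext <;> simp
  map_zero' := by ext <;> simp
  map_add' z w := by ext <;> simp
  map_mul' z w := by ext <;> simp

lemma incl_inj (P : ℤ) : Function.Injective (incl P) := by
  intro z w h
  have h1 : (z.re : ℚ) = w.re := congrArg QuadraticAlgebra.re h
  have h2 : (z.im : ℚ) = w.im := congrArg QuadraticAlgebra.im h
  ext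
  · exact_mod_cast h1
  · exact_mod_cast h2

lemma no_rat_root {P : ℤ} (hP : P = 1 ∨ P = 2) : ∀ r : ℚ, r ^ 2 ≠ 1 + (P : ℚ) * r := by
  intro r hr
  rcases hP with h | h
  · rw [h] at hr
    have h1 : IsSquare ((5 : ℕ) : ℚ) := ⟨2 * r - 1, by push_cast at hr ⊢; linarith⟩
    rw [Rat.isSquare_natCast_iff] at h1
    obtain ⟨d, hd⟩ := h1
    have h2 : d < 3 := by nlinarith
    interval_cases d <;> omega
  · rw [h] at hr
    have h1 : IsSquare ((2 : ℕ) : ℚ) := ⟨r - 1, by push_cast at hr ⊢; linarith⟩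
    rw [Rat.isSquare_natCast_iff] at h1
    obtain ⟨d, hd⟩ := h1
    have h2 : d < 2 := by nlinarith
    interval_cases d <;> omega

lemma al_integral (P : ℤ) {x : ℝ} (hx : x ^ 2 = 1 + P * x) : IsIntegral ℤ x := by
  refine ⟨X ^ 2 - C P * X - 1, ?_, ?_⟩
  · have h1 : (X ^ 2 - C P * X - 1 : ℤ[X]) = X ^ 2 + (C (-P) * X + C (-1)) := by
      simp only [map_neg, map_one]; ring
    rw [h1]
    apply monic_X_pow_add
    refine lt_of_le_of_lt (degree_linear_le) ?_
    norm_num
  · simp only [eval₂_sub, eval₂_mul, eval₂_pow, eval₂_X, eval₂_C, eval₂_one]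
    rw [hx]
    simp

/-- `ω` is no power with an odd exponent -/
lemma no_root_al {P : ℤ} (hP : P = 1 ∨ P = 2) {p : ℕ} (hp : p.Prime) (hp2 : p ≠ 2) (y : KK P)
    (h : y ^ p = QuadraticAlgebra.omega) : False := by
  have hP1 : 1 ≤ P := by rcases hP with h | h <;> omega
  have hp3 : 3 ≤ p := by have := hp.two_le; omega
  have hodd := hp.odd_of_ne_two hp2
  set a : ℝ := evK P (al P) (al_sq P) y with ha
  set b : ℝ := evK P (be P) (be_sq P) y with hb
  have ha1 : a ^ p = al P := by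
    rw [ha, ← map_pow, h]
    simp [evK]
  have hb1 : b ^ p = be P := by
    rw [hb, ← map_pow, h]
    simp [evK]
  have hal := al_gt hP1
  have ha0 : 0 < a := by
    by_contra hcon
    have h1 := hodd.pow_nonpos_iff.2 (not_lt.1 hcon)
    linarith
  have ha2 : 1 < a := by
    by_contra hcon
    have h1 : a ^ p ≤ 1 := pow_le_one₀ ha0.le (not_lt.1 hcon)
    linarith
  have hab : a * b = -1 := by
    have h1 : (a * b) ^ p = (-1) ^ p := by rw [mul_pow, ha1, hb1, al_mul, hodd.neg_one_pow]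
    exact hodd.strictMono_pow.injective h1
  have hint : IsIntegral ℤ (a + b) := by
    apply IsIntegral.add
    · apply IsIntegral.of_pow hp.pos
      rw [ha1]
      exact al_integral P (al_sq P)
    · apply IsIntegral.of_pow hp.pos
      rw [hb1]
      exact al_integral P (be_sq P)
  have hT : a + b = algebraMap ℚ ℝ (2 * y.re + P * y.im) := by
    rw [ha, hb]
    simp only [evK, RingHom.coe_mk, MonoidHom.coe_mk, OneHom.coe_mk, eq_ratCast]
    push_cast
    rw [← al_add P]
    ring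
  rw [hT, isIntegral_algebraMap_iff (algebraMap ℚ ℝ).injective, IsIntegrallyClosed.isIntegral_iff] at hint
  obtain ⟨m, hm⟩ := hint
  rw [← hm] at hT
  simp only [algebraMap_int_eq, eq_intCast, map_intCast] at hT
  have hbv : b = -1 / a := by field_simp; linarith
  have hTpos : 0 < a + b := by
    rw [hbv]
    have h1 : 1 / a < a := by
      rw [div_lt_iff₀ ha0]; nlinarith
    have h2 : -1 / a = -(1 / a) := by ring
    rw [h2]; linarith
  have hm1 : (1 : ℝ) ≤ (m : ℝ) := by
    rw [hT] at hTpos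
    have : 0 < m := by exact_mod_cast hTpos
    exact_mod_cast this
  have h5 : a ^ 2 ≥ a + 1 := by
    have h1 : a * (a + b) = a * m := by rw [hT]
    have h2 : a * m ≥ a := by nlinarith
    nlinarith
  have h6 : a ^ 3 ≤ a ^ p := pow_le_pow_right₀ ha2.le hp3
  rw [ha1] at h6
  have h7 := al_lt hP
  have h8 : (3 : ℝ) ≤ a ^ 3 := by nlinarith
  linarith

theorem quad_irr {P : ℤ} (hP : P = 1 ∨ P = 2) [Fact (∀ r : ℚ, r ^ 2 ≠ 1 + (P : ℚ) * r)] {n q : ℕ}
    (hn : Odd n) (hq : 1 ≤ q) (hcop : ∀ p : ℕ, p.Prime → p ∣ q → ¬ p ∣ n) :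
    Irreducible (X ^ q - C (((1 : ℤ) : KK P) / (QuadraticAlgebra.omega : KK P) ^ n) : (KK P)[X]) ∧
    Irreducible (X ^ q - C (((-1 : ℤ) : KK P) / (QuadraticAlgebra.omega : KK P) ^ (2 * n)) :
      (KK P)[X]) := by
  apply irr_luc (evK P (al P) (al_sq P)) QuadraticAlgebra.norm
  · rw [QuadraticAlgebra.norm_def, QuadraticAlgebra.re_ofNat, QuadraticAlgebra.im_ofNat]; norm_num
  · rw [QuadraticAlgebra.norm_neg, map_one]
  · intro h
    have h1 := congrArg QuadraticAlgebra.im h
    simp at h1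
  · rw [QuadraticAlgebra.norm_def]; simp
  · intro p hp hp2 y hy
    exact no_root_al hP hp hp2 y hy
  · exact hn
  · exact hq
  · exact hcop

/-- the norm in terms of the real embeddings -/
lemma norm_real (P : ℤ) (z : OO P) :
    ((QuadraticAlgebra.norm z : ℤ) : ℝ) = evO P (al P) (al_sq P) z * evO P (be P) (be_sq P) z := by
  rw [QuadraticAlgebra.norm_def]
  simp only [evO, RingHom.coe_mk, MonoidHom.coe_mk, OneHom.coe_mk]
  push_cast
  linear_combination (-(z.re : ℝ) * z.im) * al_add P - (z.im : ℝ) ^ 2 * al_mul P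

lemma norm_ne {P : ℤ} (hP : P = 1 ∨ P = 2) {z : OO P} (hz : z ≠ 0) :
    QuadraticAlgebra.norm z ≠ 0 := by
  have : Fact (∀ r : ℚ, r ^ 2 ≠ 1 + (P : ℚ) * r) := ⟨no_rat_root hP⟩
  intro h
  apply hz
  apply incl_inj P
  rw [map_zero]
  apply (QuadraticAlgebra.norm_eq_zero_iff_eq_zero).1
  rw [QuadraticAlgebra.norm_def] at h ⊢
  simp only [incl, RingHom.coe_mk, MonoidHom.coe_mk, OneHom.coe_mk]
  exact_mod_cast h

/-- the size of the norm of a polynomial value -/
lemma norm_bound {P : ℤ} (hP : 1 ≤ P) {Q : ℤ[X]} {r : ℕ} {A : ℤ} (hQ : Q.natDegree ≤ r)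
    (hA : ∑ j ∈ range (r + 1), |Q.coeff j| ≤ A) :
    |((QuadraticAlgebra.norm (aeval (QuadraticAlgebra.omega : OO P) Q) : ℤ) : ℝ)| ≤
      (A : ℝ) ^ 2 * (al P) ^ r := by
  have hA' : ∑ j ∈ range (r + 1), |((Q.coeff j : ℤ) : ℝ)| ≤ (A : ℝ) := by
    have h1 : ((∑ j ∈ range (r + 1), |Q.coeff j| : ℤ) : ℝ) ≤ (A : ℝ) := by exact_mod_cast hA
    push_cast at h1
    exact h1
  have hA0 : (0 : ℝ) ≤ (A : ℝ) := le_trans (Finset.sum_nonneg (fun j _ => abs_nonneg _)) hA'
  have hev : ∀ (x : ℝ) (hx : x ^ 2 = 1 + P * x),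
      evO P x hx (aeval (QuadraticAlgebra.omega : OO P) Q) =
        ∑ j ∈ range (r + 1), ((Q.coeff j : ℤ) : ℝ) * x ^ j := by
    intro x hx
    rw [aeval_eq_sum_range' (Nat.lt_succ_of_le hQ), map_sum]
    apply Finset.sum_congr rfl
    intro j _
    rw [zsmul_eq_mul, map_mul, map_pow, map_intCast]
    congr 2
    simp [evO]
  rw [norm_real, abs_mul, hev, hev]
  have hal := al_gt hP
  have hbe := be_abs hP
  have e1 : |∑ j ∈ range (r + 1), ((Q.coeff j : ℤ) : ℝ) * (al P) ^ j| ≤ A * (al P) ^ r := by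
    refine (Finset.abs_sum_le_sum_abs _ _).trans ?_
    calc ∑ j ∈ range (r + 1), |((Q.coeff j : ℤ) : ℝ) * (al P) ^ j|
        ≤ ∑ j ∈ range (r + 1), |((Q.coeff j : ℤ) : ℝ)| * (al P) ^ r := by
          apply Finset.sum_le_sum
          intro j hj
          rw [Finset.mem_range] at hj
          rw [abs_mul, abs_of_pos (by positivity : 0 < (al P) ^ j)]
          exact mul_le_mul_of_nonneg_left (pow_le_pow_right₀ hal.le (by omega)) (abs_nonneg _)
      _ = (∑ j ∈ range (r + 1), |((Q.coeff j : ℤ) : ℝ)|) * (al P) ^ r := by rw [Finset.sum_mul]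
      _ ≤ A * (al P) ^ r := mul_le_mul_of_nonneg_right hA' (by positivity)
  have e2 : |∑ j ∈ range (r + 1), ((Q.coeff j : ℤ) : ℝ) * (be P) ^ j| ≤ A := by
    refine (Finset.abs_sum_le_sum_abs _ _).trans (le_trans ?_ hA')
    apply Finset.sum_le_sum
    intro j _
    rw [abs_mul, abs_pow]
    calc _ ≤ |((Q.coeff j : ℤ) : ℝ)| * 1 :=
          mul_le_mul_of_nonneg_left (pow_le_one₀ (abs_nonneg _) hbe) (abs_nonneg _)
      _ = _ := mul_one _
  calc _ ≤ (A * (al P) ^ r) * A := mul_le_mul e1 e2 (abs_nonneg _) (by positivity)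
    _ = _ := by ring

end Pool.Agent.Helper53.GE
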