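import Mathlib
import Pool.Agent.Helper53.GE.Quad

set_option autoImplicit false

namespace Pool.Agent.Helper53.GE

open Finset Polynomial
open scoped QuadraticAlgebra

/-- the conjugate root -/
def wc (P : ℤ) : OO P := ⟨P, -1⟩

lemma w_add (P : ℤ) : (QuadraticAlgebra.omega : OO P) + wc P = (P : OO P) := by
  ext <;> simp [wc]

lemma w_mul (P : ℤ) : (QuadraticAlgebra.omega : OO P) * wc P = -1 := by
  ext <;> simp [wc]

lemma star_w (P : ℤ) : star (QuadraticAlgebra.omega : OO P) = wc P := by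
  ext <;> simp [wc]

lemma int_dvd_iff {P : ℤ} {r : ℤ} {z : OO P} : ((r : ℤ) : OO P) ∣ z ↔ r ∣ z.re ∧ r ∣ z.im := by
  have h : ((r : ℤ) : OO P) = algebraMap ℤ (OO P) r := by simp
  rw [h, QuadraticAlgebra.algebraMap_dvd_iff]

lemma fin_bound {P : ℤ} (hP : 1 ≤ P) {q M m k H : ℕ} (hq : q ≤ M) (hkH : 1 ≤ 2 * k * H) :
    (((((2 * k * H : ℕ) : ℤ) ^ q : ℤ)) : ℝ) ^ 2 * al P ^ (m + q) ≤
      (((2 * k * H : ℕ) : ℝ) ^ 2 * al P) ^ M * al P ^ m := by
  have hal := al_gt hP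
  have h1 : (1 : ℝ) ≤ ((2 * k * H : ℕ) : ℝ) := by exact_mod_cast hkH
  have h2 : 1 ≤ ((2 * k * H : ℕ) : ℝ) ^ 2 * al P := by nlinarith
  have e : (((((2 * k * H : ℕ) : ℤ) ^ q : ℤ)) : ℝ) = ((2 * k * H : ℕ) : ℝ) ^ q := by
    rw [Int.cast_pow, Int.cast_natCast]
  rw [e]
  calc (((2 * k * H : ℕ) : ℝ) ^ q) ^ 2 * al P ^ (m + q)
      = (((2 * k * H : ℕ) : ℝ) ^ 2 * al P) ^ q * al P ^ m := by
        rw [mul_pow, pow_add, ← pow_mul, ← pow_mul, mul_comm q 2]
        ring
    _ ≤ _ := mul_le_mul_of_nonneg_right (pow_le_pow_right₀ h2 hq) (by positivity)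

lemma irr_for {P : ℤ} (hP : P = 1 ∨ P = 2) {n M : ℕ} (hn : Odd n)
    (hcop : ∀ q : ℕ, 1 ≤ q → q ≤ M → ∀ p : ℕ, p.Prime → p ∣ q → ¬ p ∣ n) :
    ∃ (K : Type) (_ : Field K) (f : OO P →+* K), Function.Injective f ∧
      (∀ q : ℕ, 1 ≤ q → q ≤ M →
        Irreducible (X ^ q - C (((1 : ℤ) : K) / (f QuadraticAlgebra.omega) ^ n) : K[X])) ∧
      (∀ q : ℕ, 1 ≤ q → q ≤ M →
        Irreducible (X ^ q - C (((-1 : ℤ) : K) / (f QuadraticAlgebra.omega) ^ (2 * n)) : K[X])) := by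
  have : Fact (∀ r : ℚ, r ^ 2 ≠ 1 + (P : ℚ) * r) := ⟨no_rat_root hP⟩
  have h0 : incl P QuadraticAlgebra.omega = (QuadraticAlgebra.omega : KK P) := by
    ext <;> simp [incl]
  refine ⟨KK P, inferInstance, incl P, incl_inj P, ?_, ?_⟩
  · intro q h1 h2
    rw [h0]
    exact (quad_irr hP hn h1 (hcop q h1 h2)).1
  · intro q h1 h2
    rw [h0]
    exact (quad_irr hP hn h1 (hcop q h1 h2)).2

lemma LU_two_odd : ∀ m : ℕ, Odd (LU 2 (2 * m + 1))
  | 0 => by simp [LU]
  | (m + 1) => by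
    have h := LU_two_odd m
    have e : LU 2 (2 * (m + 1) + 1) = 2 * LU 2 (2 * m + 2) + LU 2 (2 * m + 1) := rfl
    rw [e]
    exact (even_two_mul _).add_odd h

/-- **Divisors of `U_n`.** -/
theorem U_main {P : ℤ} (hP : P = 1 ∨ P = 2) {n k H N : ℕ} (hn : Odd n) (hN : 1 ≤ N)
    (hcop : ∀ q : ℕ, 1 ≤ q → q ≤ N ^ k → ∀ p : ℕ, p.Prime → p ∣ q → ¬ p ∣ n)
    (s : Finset ℕ) (c : ℕ → ℤ) (hs : s.card ≤ k) (hc : ∀ i ∈ s, |c i| ≤ H) {x : ℤ}
    (hx : x ∣ LU P n) (hxz : x ∣ ∑ i ∈ s, c i * LU P i) :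
    LU P n ∣ ∑ i ∈ s, c i * LU P i ∨
      (x : ℝ) ^ 2 ≤ (((2 * k * H : ℕ) : ℝ) ^ 2 * al P) ^ (N ^ k) * al P ^ (2 * (2 * n) / N) := by
  have hP1 : 1 ≤ P := by rcases hP with h | h <;> omega
  rcases Nat.eq_zero_or_pos (2 * k * H) with h0 | hkH
  · left
    have h1 : ∑ i ∈ s, c i * LU P i = 0 := by
      apply Finset.sum_eq_zero
      intro i hi
      have h2 : 1 ≤ k := le_trans (Finset.card_pos.2 ⟨i, hi⟩) hs
      have h3 : H = 0 := by
        rcases Nat.mul_eq_zero.1 h0 with h | h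
        · omega
        · exact h
      have h4 := hc i hi
      rw [h3] at h4
      have h5 : c i = 0 := by
        have := abs_nonneg (c i)
        exact abs_eq_zero.1 (le_antisymm (by exact_mod_cast h4) this)
      rw [h5, zero_mul]
    rw [h1]
    exact dvd_zero _
  obtain ⟨K, _, f, hf, -, hirr⟩ := irr_for hP hn hcop
  -- the value of `w ^ (2 n) + 1`
  have hmul := LU_mul (w_add P) (w_mul P) n
  have hww : (QuadraticAlgebra.omega : OO P) ^ n * (wc P) ^ n = -1 := by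
    rw [← mul_pow, w_mul, hn.neg_one_pow]
  have hval : (QuadraticAlgebra.omega : OO P) ^ (2 * n) - ((-1 : ℤ) : OO P) =
      (QuadraticAlgebra.omega - wc P) * (LU P n : OO P) * QuadraticAlgebra.omega ^ n := by
    rw [hmul, two_mul, pow_add]
    push_cast
    linear_combination hww
  have hI : (QuadraticAlgebra.omega : OO P) ^ (2 * n) - ((-1 : ℤ) : OO P) ∈
      Ideal.span {((x : ℤ) : OO P)} := by
    rw [Ideal.mem_span_singleton, hval]
    obtain ⟨y, hy⟩ := hx
    refine Dvd.dvd.mul_right (Dvd.dvd.mul_left ?_ _) _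
    exact ⟨(y : OO P), by rw [hy]; push_cast; ring⟩
  have hzI : ((∑ i ∈ s, c i * LU P i : ℤ) : OO P) ∈ Ideal.span {((x : ℤ) : OO P)} := by
    rw [Ideal.mem_span_singleton]
    obtain ⟨y, hy⟩ := hxz
    exact ⟨(y : OO P), by rw [hy]; push_cast; ring⟩
  have hn1 : 1 ≤ 2 * n := by
    have := hn.pos
    omega
  rcases luc_core f hf (w_add P) (w_mul P) (n := 2 * n) (k := k) (H := H) (N := N) hn1 hN
    (Or.inr rfl : (-1 : ℤ) = 1 ∨ (-1 : ℤ) = -1) hirr s c hs hc _ hI hzI with h | h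
  · left
    rw [hval] at h
    have h1 : ((LU P n : ℤ) : OO P) ∣
        (QuadraticAlgebra.omega - wc P) * ((∑ i ∈ s, c i * LU P i : ℤ) : OO P) := by
      refine dvd_trans ?_ h
      exact Dvd.dvd.mul_right (Dvd.intro_left _ rfl) _
    rw [int_dvd_iff] at h1
    obtain ⟨h2, h3⟩ := h1
    simp only [wc, QuadraticAlgebra.re_mul, QuadraticAlgebra.im_mul, QuadraticAlgebra.re_sub,
      QuadraticAlgebra.im_sub, QuadraticAlgebra.omega_re, QuadraticAlgebra.omega_im,
      QuadraticAlgebra.re_intCast, QuadraticAlgebra.im_intCast] at h2 h3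
    rcases hP with h4 | h4
    · rw [h4] at h2 ⊢
      have h5 : ((0 : ℤ) - 1) * (∑ i ∈ s, c i * LU 1 i : ℤ) + 1 * (1 - -1) * 0 =
          -(∑ i ∈ s, c i * LU 1 i) := by ring
      have h6 : LU 1 n ∣ -(∑ i ∈ s, c i * LU 1 i) := by
        rw [← h5]
        exact_mod_cast h2
      exact (dvd_neg).1 h6
    · rw [h4] at h3 ⊢
      have h6 : LU 2 n ∣ 2 * (∑ i ∈ s, c i * LU 2 i) := by
        have h5 : 2 * (∑ i ∈ s, c i * LU 2 i) =
          ((0 : ℤ) - 2) * 0 + (1 - -1) * (∑ i ∈ s, c i * LU 2 i : ℤ) + 2 * (1 - -1) * 0 := by ring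
        rw [h5]
        exact_mod_cast h3
      obtain ⟨m, hm⟩ := hn
      have h7 : Odd (LU 2 n) := by rw [hm]; exact LU_two_odd m
      have h8 : IsCoprime (LU 2 n) 2 := (Int.isCoprime_two_right).2 h7
      exact h8.dvd_of_dvd_mul_left h6
  · right
    obtain ⟨q, Q, hq, hdeg, hA, hmem, hne⟩ := h
    rw [Ideal.mem_span_singleton] at hmem
    obtain ⟨B, hB⟩ := hmem
    have hnB : QuadraticAlgebra.norm B ≠ 0 := by
      intro h1
      apply norm_ne hP hne
      rw [hB, map_mul, h1, mul_zero]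
    have hb := norm_bound hP1 hdeg hA
    have h1 : (x : ℝ) ^ 2 ≤ |((QuadraticAlgebra.norm (aeval (QuadraticAlgebra.omega : OO P) Q) : ℤ) : ℝ)| := by
      rw [hB, map_mul, QuadraticAlgebra.norm_intCast]
      push_cast
      rw [abs_mul, abs_pow, sq_abs]
      have h2 : (1 : ℝ) ≤ |((QuadraticAlgebra.norm B : ℤ) : ℝ)| := by
        have h3 : 1 ≤ |QuadraticAlgebra.norm B| := Int.one_le_abs hnB
        exact_mod_cast h3
      nlinarith [sq_nonneg (x : ℝ)]
    exact (h1.trans hb).trans (fin_bound hP1 hq hkH)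

/-- **Divisors of `V_n`.** -/
theorem V_main {P : ℤ} (hP : P = 1 ∨ P = 2) {n k H N : ℕ} (hn : Odd n) (hN : 1 ≤ N)
    (hcop : ∀ q : ℕ, 1 ≤ q → q ≤ N ^ k → ∀ p : ℕ, p.Prime → p ∣ q → ¬ p ∣ n)
    (s : Finset ℕ) (c : ℕ → ℤ) (hs : s.card ≤ k) (hc : ∀ i ∈ s, |c i| ≤ H) {x V : ℤ}
    (hV : Odd V) (hVn : V ∣ LV P n) (hx : x ∣ V) (hxz : x ∣ ∑ i ∈ s, c i * LU P i) :
    V ∣ ∑ i ∈ s, c i * LU P i ∨
      |(x : ℝ)| ≤ (((2 * k * H : ℕ) : ℝ) ^ 2 * al P) ^ (N ^ k) * al P ^ (2 * n / N) := by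
  have hP1 : 1 ≤ P := by rcases hP with h | h <;> omega
  rcases Nat.eq_zero_or_pos (2 * k * H) with h0 | hkH
  · left
    have h1 : ∑ i ∈ s, c i * LU P i = 0 := by
      apply Finset.sum_eq_zero
      intro i hi
      have h2 : 1 ≤ k := le_trans (Finset.card_pos.2 ⟨i, hi⟩) hs
      have h3 : H = 0 := by
        rcases Nat.mul_eq_zero.1 h0 with h | h
        · omega
        · exact h
      have h4 := hc i hi
      rw [h3] at h4
      have h5 : c i = 0 := by
        have := abs_nonneg (c i)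
        exact abs_eq_zero.1 (le_antisymm (by exact_mod_cast h4) this)
      rw [h5, zero_mul]
    rw [h1]
    exact dvd_zero _
  obtain ⟨K, _, f, hf, hirr, -⟩ := irr_for hP hn hcop
  have hww : (QuadraticAlgebra.omega : OO P) ^ n * (wc P) ^ n = -1 := by
    rw [← mul_pow, w_mul, hn.neg_one_pow]
  have hVeq := LV_eq (w_add P) (w_mul P) n
  have hprod : ((QuadraticAlgebra.omega : OO P) ^ n - 1) * ((wc P) ^ n - 1) =
      -((LV P n : ℤ) : OO P) := by
    rw [hVeq]
    linear_combination hww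
  set I : Ideal (OO P) := Ideal.span {((x : ℤ) : OO P), (QuadraticAlgebra.omega : OO P) ^ n - 1}
    with hIdef
  have hI : (QuadraticAlgebra.omega : OO P) ^ n - ((1 : ℤ) : OO P) ∈ I := by
    rw [Int.cast_one]
    exact Ideal.subset_span (by simp)
  have hzI : ((∑ i ∈ s, c i * LU P i : ℤ) : OO P) ∈ I := by
    obtain ⟨y, hy⟩ := hxz
    have h1 : ((∑ i ∈ s, c i * LU P i : ℤ) : OO P) = (y : OO P) * ((x : ℤ) : OO P) := by
      rw [hy]; push_cast; ring
    rw [h1]
    exact Ideal.mul_mem_left _ _ (Ideal.subset_span (by simp))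
  rcases luc_core f hf (w_add P) (w_mul P) (n := n) (k := k) (H := H) (N := N) hn.pos hN
    (Or.inl rfl : (1 : ℤ) = 1 ∨ (1 : ℤ) = -1) hirr s c hs hc _ hI hzI with h | h
  · left
    obtain ⟨B, hB⟩ := h
    rw [Int.cast_one] at hB
    set z : ℤ := ∑ i ∈ s, c i * LU P i with hz
    have hmul := LU_mul (w_add P) (w_mul P) n
    -- `2 (w - w') (w' ^ n - 1) z`
    have h1 : ((V : ℤ) : OO P) ∣ 2 * ((QuadraticAlgebra.omega - wc P) * ((wc P) ^ n - 1) * (z : OO P)) := by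
      have h2 : 2 * ((QuadraticAlgebra.omega - wc P) * ((wc P) ^ n - 1) * (z : OO P)) =
          ((LV P n : ℤ) : OO P) * (-(2 * B)) := by
        have h3 : (QuadraticAlgebra.omega - wc P) * ((wc P) ^ n - 1) * (z : OO P) =
            ((wc P) ^ n - 1) * ((QuadraticAlgebra.omega - wc P) * (z : OO P)) := by ring
        rw [h3, hB]
        linear_combination (2 * B) * hprod
      rw [h2]
      obtain ⟨y, hy⟩ := hVn
      refine Dvd.dvd.mul_right ⟨(y : OO P), ?_⟩ _
      rw [hy]; push_cast; ring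
    have h4 : 2 * ((QuadraticAlgebra.omega - wc P) * ((wc P) ^ n - 1) * (z : OO P)) =
        (((LV P n - 2) * z : ℤ) : OO P) * (QuadraticAlgebra.omega - wc P) -
          (((P ^ 2 + 4) * LU P n * z : ℤ) : OO P) := by
      have hΔ : (QuadraticAlgebra.omega - wc P) ^ 2 = ((P ^ 2 + 4 : ℤ) : OO P) := by
        have e1 := w_add P
        have e2 := w_mul P
        push_cast
        rw [← e1]
        linear_combination -4 * e2
      push_cast at hΔ ⊢
      rw [hVeq, ← hΔ]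
      linear_combination ((QuadraticAlgebra.omega - wc P) * (z : OO P)) * hmul
    rw [h4, int_dvd_iff] at h1
    have h5 := h1.2
    simp only [wc, QuadraticAlgebra.im_mul, QuadraticAlgebra.re_sub,
      QuadraticAlgebra.im_sub, QuadraticAlgebra.omega_re, QuadraticAlgebra.omega_im,
      QuadraticAlgebra.re_intCast, QuadraticAlgebra.im_intCast] at h5
    have h6 : V ∣ (LV P n - 2) * z * (1 - -1) := by
      have e1 : (LV P n - 2) * z * (1 - -1) =
        (LV P n - 2) * z * (1 - -1) + 0 * (0 - P) + P * 0 * (1 - -1) - 0 := by ring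
      rw [e1]
      exact_mod_cast h5
    have h7 : V ∣ 4 * z := by
      have e1 : 4 * z = LV P n * (2 * z) - (LV P n - 2) * z * (1 - -1) := by ring
      rw [e1]
      exact dvd_sub (Dvd.dvd.mul_right hVn _) h6
    have h8 : IsCoprime V 4 := by
      have h9 : IsCoprime V 2 := (Int.isCoprime_two_right).2 hV
      have e1 : (4 : ℤ) = 2 * 2 := by norm_num
      rw [e1]
      exact h9.mul_right h9
    exact h8.dvd_of_dvd_mul_left h7
  · right
    obtain ⟨q, Q, hq, hdeg, hA, hmem, hne⟩ := h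
    rw [hIdef, Ideal.mem_span_pair] at hmem
    obtain ⟨A, B, hAB⟩ := hmem
    have hb := norm_bound hP1 hdeg hA
    have hxn : x ∣ QuadraticAlgebra.norm (aeval (QuadraticAlgebra.omega : OO P) Q) := by
      have h1 : ((x : ℤ) : OO P) ∣
          algebraMap ℤ (OO P) (QuadraticAlgebra.norm (aeval (QuadraticAlgebra.omega : OO P) Q)) := by
        rw [QuadraticAlgebra.algebraMap_norm_eq_mul_star, ← hAB]
        obtain ⟨y, hy⟩ := hx
        obtain ⟨y', hy'⟩ := hVn
        have h2 : ((LV P n : ℤ) : OO P) = ((x : ℤ) : OO P) * ((y * y' : ℤ) : OO P) := by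
          rw [hy', hy]; push_cast; ring
        have h3 : star (A * ((x : ℤ) : OO P) + B * ((QuadraticAlgebra.omega : OO P) ^ n - 1)) =
            star A * ((x : ℤ) : OO P) + star B * ((wc P) ^ n - 1) := by
          rw [star_add, star_mul', star_mul', star_sub, star_pow, star_w, star_one, star_intCast]
        rw [h3]
        refine ⟨A * (star A * ((x : ℤ) : OO P) + star B * ((wc P) ^ n - 1)) +
          B * ((QuadraticAlgebra.omega : OO P) ^ n - 1) * star A -
            B * star B * ((y * y' : ℤ) : OO P), ?_⟩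
        linear_combination (B * star B) * hprod - (B * star B) * h2
      rw [int_dvd_iff] at h1
      simpa using h1.1
    have h1 : |(x : ℝ)| ≤ |((QuadraticAlgebra.norm (aeval (QuadraticAlgebra.omega : OO P) Q) : ℤ) : ℝ)| := by
      have h2 : |x| ≤ |QuadraticAlgebra.norm (aeval (QuadraticAlgebra.omega : OO P) Q)| :=
        Int.le_of_dvd (abs_pos.2 (norm_ne hP hne)) ((abs_dvd_abs _ _).2 hxn)
      exact_mod_cast h2
    exact (h1.trans hb).trans (fin_bound hP1 hq hkH)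

end Pool.Agent.Helper53.GE
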