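import Mathlib
import Pool.Agent.Helper53.GE.LucMain
import Pool.Agent.Helper53.GD.Asym

set_option autoImplicit false

namespace Pool.Agent.Helper53.GE

open Finset Polynomial Filter Pool.Agent.Helper53.GD

/-- the size of the bounds -/
lemma analytic {a : ℝ} (ha : 1 < a) (H : ℕ) {δ : ℝ} (hδ : 0 < δ) :
    ∃ c : ℝ, 0 < c ∧ ∃ N : ℕ, 1 ≤ N ∧ ∃ n₀ : ℕ, ∀ n : ℕ, n₀ ≤ n → ∀ k : ℕ,
      (k : ℝ) ≤ c * Real.log n → N ^ k < n ∧
        (((2 * k * H : ℕ) : ℝ) ^ 2 * a) ^ (N ^ k) * a ^ (2 * (2 * n) / N) < a ^ (δ * n) := by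
  have hla : 0 < Real.log a := Real.log_pos ha
  obtain ⟨N, hN2, hNδ⟩ : ∃ N : ℕ, 2 ≤ N ∧ 8 / δ ≤ N := by
    refine ⟨⌈8 / δ⌉₊ + 2, by omega, ?_⟩
    push_cast
    linarith [Nat.le_ceil (8 / δ)]
  have hNpos : (0 : ℝ) < N := by exact_mod_cast (by omega : 0 < N)
  have hlN : 0 < Real.log N := Real.log_pos (by exact_mod_cast (by omega : 1 < N))
  have hC : 0 < 4 * ((H : ℝ) + 1) ^ 2 * a := by positivity
  obtain ⟨n₁, hn₁⟩ := Filter.eventually_atTop.1 (ev_log (Real.log (4 * ((H : ℝ) + 1) ^ 2 * a) / 2)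
    (δ / 4 * Real.log a) (by positivity))
  refine ⟨1 / (2 * Real.log N), by positivity, N, by omega, max n₁ 2, ?_⟩
  intro n hn k hk
  have hn2 : 2 ≤ n := le_trans (le_max_right _ _) hn
  have hev := hn₁ n (le_trans (le_max_left _ _) hn)
  have hnpos : (0 : ℝ) < n := by exact_mod_cast (by omega : 0 < n)
  have hNk : N ^ (2 * k) ≤ n := by
    have h1 : (k : ℝ) * (2 * Real.log N) ≤ Real.log n := by
      have h2 : (k : ℝ) ≤ Real.log n / (2 * Real.log N) := by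
        calc (k : ℝ) ≤ 1 / (2 * Real.log N) * Real.log n := hk
          _ = _ := by ring
      rwa [le_div_iff₀ (by positivity)] at h2
    have h3 : Real.log ((N : ℝ) ^ (2 * k)) ≤ Real.log n := by
      rw [Real.log_pow]
      push_cast
      linarith
    have h4 : (N : ℝ) ^ (2 * k) ≤ n := (Real.log_le_log_iff (by positivity) hnpos).1 h3
    exact_mod_cast h4
  constructor
  · rcases Nat.eq_zero_or_pos k with h0 | h0
    · rw [h0, pow_zero]; omega
    · calc N ^ k < N ^ (2 * k) := Nat.pow_lt_pow_right (by omega) (by omega)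
        _ ≤ n := hNk
  have hpos : 0 < a ^ (δ * n) := Real.rpow_pos_of_pos (by linarith) _
  rcases Nat.eq_zero_or_pos (2 * k * H) with h0 | hkH
  · rw [h0]
    have h1 : N ^ k ≠ 0 := by positivity
    rw [Nat.cast_zero, zero_pow (by norm_num), zero_mul, zero_pow h1, zero_mul]
    exact hpos
  have hX : (1 : ℝ) ≤ ((2 * k * H : ℕ) : ℝ) := by exact_mod_cast hkH
  have hbase : 1 ≤ ((2 * k * H : ℕ) : ℝ) ^ 2 * a := by nlinarith
  have hkn : k ≤ n := by
    calc k ≤ 2 ^ k := (Nat.lt_two_pow_self).le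
      _ ≤ N ^ k := Nat.pow_le_pow_left hN2 _
      _ ≤ N ^ (2 * k) := Nat.pow_le_pow_right (by omega) (by omega)
      _ ≤ n := hNk
  have hlb : Real.log (((2 * k * H : ℕ) : ℝ) ^ 2 * a) ≤
      2 * Real.log n + Real.log (4 * ((H : ℝ) + 1) ^ 2 * a) := by
    have e1 : 2 * Real.log n = Real.log ((n : ℝ) ^ 2) := by rw [Real.log_pow]; push_cast; ring
    rw [e1, ← Real.log_mul (by positivity) hC.ne']
    apply Real.log_le_log (by linarith)
    have h1 : ((2 * k * H : ℕ) : ℝ) ≤ 2 * n * ((H : ℝ) + 1) := by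
      push_cast
      have h2 : (k : ℝ) ≤ n := by exact_mod_cast hkn
      have h3 : (0 : ℝ) ≤ k := by positivity
      have h4 : (0 : ℝ) ≤ H := by positivity
      nlinarith
    calc ((2 * k * H : ℕ) : ℝ) ^ 2 * a ≤ (2 * n * ((H : ℝ) + 1)) ^ 2 * a := by
          apply mul_le_mul_of_nonneg_right _ (by linarith)
          exact pow_le_pow_left₀ (by linarith) h1 2
      _ = _ := by ring
  have hMs : (N : ℝ) ^ k ≤ Real.sqrt n := by
    apply Real.le_sqrt_of_sq_le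
    have h1 : (N ^ k) ^ 2 ≤ n := by rw [← pow_mul, mul_comm]; exact hNk
    exact_mod_cast h1
  have hdiv : ((2 * (2 * n) / N : ℕ) : ℝ) ≤ δ / 2 * n := by
    have h1 : ((2 * (2 * n) / N : ℕ) : ℝ) ≤ ((2 * (2 * n) : ℕ) : ℝ) / N := Nat.cast_div_le
    refine h1.trans ?_
    rw [div_le_iff₀ hNpos]
    rw [div_le_iff₀ hδ] at hNδ
    push_cast
    nlinarith
  have hsq : Real.sqrt n * Real.sqrt n = n := Real.mul_self_sqrt (by positivity)
  have hs0 : 0 < Real.sqrt n := Real.sqrt_pos.2 hnpos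
  rw [← Real.log_lt_log_iff (by positivity) hpos, Real.log_mul (by positivity) (by positivity),
    Real.log_pow, Real.log_pow, Real.log_rpow (by linarith)]
  have hlb0 : 0 ≤ Real.log (((2 * k * H : ℕ) : ℝ) ^ 2 * a) := Real.log_nonneg hbase
  have e1 : ((N ^ k : ℕ) : ℝ) * Real.log (((2 * k * H : ℕ) : ℝ) ^ 2 * a) ≤
      Real.sqrt n * (2 * Real.log n + Real.log (4 * ((H : ℝ) + 1) ^ 2 * a)) := by
    apply mul_le_mul _ hlb hlb0 hs0.le
    push_cast
    exact hMs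
  have e2 : Real.sqrt n * (2 * Real.log n + Real.log (4 * ((H : ℝ) + 1) ^ 2 * a)) <
      Real.sqrt n * (δ / 2 * Real.log a * Real.sqrt n) := by
    apply mul_lt_mul_of_pos_left _ hs0
    linarith
  have e3 : Real.sqrt n * (δ / 2 * Real.log a * Real.sqrt n) = δ / 2 * n * Real.log a := by
    calc Real.sqrt n * (δ / 2 * Real.log a * Real.sqrt n) =
        δ / 2 * Real.log a * (Real.sqrt n * Real.sqrt n) := by ring
      _ = _ := by rw [hsq]; ring
  have e4 : ((2 * (2 * n) / N : ℕ) : ℝ) * Real.log a ≤ δ / 2 * n * Real.log a :=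
    mul_le_mul_of_nonneg_right hdiv hla.le
  have e5 : δ * n * Real.log a = δ / 2 * n * Real.log a + δ / 2 * n * Real.log a := by ring
  linarith

/-- `z` is a sum of at most `k` terms `c_i U_i` with different `i` and `|c_i| ≤ H` -/
def FewU (P : ℤ) (k H : ℕ) (z : ℤ) : Prop :=
  ∃ (s : Finset ℕ) (c : ℕ → ℤ), s.card ≤ k ∧ (∀ i ∈ s, |c i| ≤ H) ∧ z = ∑ i ∈ s, c i * LU P i

lemma cop_of_prime {n M : ℕ} (hn : n.Prime) (hM : M < n) :
    ∀ q : ℕ, 1 ≤ q → q ≤ M → ∀ p : ℕ, p.Prime → p ∣ q → ¬ p ∣ n := by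
  intro q h1 h2 p hp hpq hpn
  rw [(Nat.prime_dvd_prime_iff_eq hp hn).1 hpn] at hpq
  have := Nat.le_of_dvd h1 hpq
  omega

theorem U_asym {P : ℤ} (hP : P = 1 ∨ P = 2) (H : ℕ) {δ : ℝ} (hδ : 0 < δ) :
    ∃ c : ℝ, 0 < c ∧ ∃ n₀ : ℕ, ∀ n : ℕ, n₀ ≤ n → n.Prime → ∀ (k : ℕ) (x z : ℤ), x ∣ LU P n →
      (al P) ^ (δ * n) ≤ |(x : ℝ)| → x ∣ z → ¬ LU P n ∣ z → FewU P k H z → c * Real.log n < k := by
  have hP1 : 1 ≤ P := by rcases hP with h | h <;> omega
  have hal := al_gt hP1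
  obtain ⟨c, hc, N, hN, n₀, h⟩ := analytic hal H (by positivity : 0 < 2 * δ)
  refine ⟨c, hc, max n₀ 3, ?_⟩
  intro n hn hnp k x z hx hxδ hxz hnot hz
  by_contra hcon
  push Not at hcon
  have hn3 : 3 ≤ n := le_trans (le_max_right _ _) hn
  obtain ⟨h1, h2⟩ := h n (le_trans (le_max_left _ _) hn) k hcon
  obtain ⟨s, c', hs, hc', rfl⟩ := hz
  rcases U_main hP (hnp.odd_of_ne_two (by omega)) hN (cop_of_prime hnp h1) s c' hs hc' hx hxz
    with h3 | h3
  · exact hnot h3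
  · have h4 : (al P) ^ (2 * δ * n) ≤ (x : ℝ) ^ 2 := by
      have h5 : (al P) ^ (2 * δ * n) = ((al P) ^ (δ * n)) ^ 2 := by
        rw [← Real.rpow_natCast ((al P) ^ (δ * n)) 2, ← Real.rpow_mul (by linarith)]
        congr 1
        push_cast; ring
      rw [h5, ← sq_abs (x : ℝ)]
      exact pow_le_pow_left₀ (by positivity) hxδ 2
    linarith

theorem V_asym {P : ℤ} (hP : P = 1 ∨ P = 2) (H : ℕ) {δ : ℝ} (hδ : 0 < δ) :
    ∃ c : ℝ, 0 < c ∧ ∃ n₀ : ℕ, ∀ n : ℕ, n₀ ≤ n → n.Prime → ∀ (k : ℕ) (x z V : ℤ), Odd V →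
      V ∣ LV P n → x ∣ V → (al P) ^ (δ * n) ≤ |(x : ℝ)| → x ∣ z → ¬ V ∣ z → FewU P k H z →
      c * Real.log n < k := by
  have hP1 : 1 ≤ P := by rcases hP with h | h <;> omega
  have hal := al_gt hP1
  obtain ⟨c, hc, N, hN, n₀, h⟩ := analytic hal H hδ
  refine ⟨c, hc, max n₀ 3, ?_⟩
  intro n hn hnp k x z V hV hVn hx hxδ hxz hnot hz
  by_contra hcon
  push Not at hcon
  have hn3 : 3 ≤ n := le_trans (le_max_right _ _) hn
  obtain ⟨h1, h2⟩ := h n (le_trans (le_max_left _ _) hn) k hcon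
  obtain ⟨s, c', hs, hc', rfl⟩ := hz
  rcases V_main hP (hnp.odd_of_ne_two (by omega)) hN (cop_of_prime hnp h1) s c' hs hc' hV hVn hx hxz
    with h3 | h3
  · exact hnot h3
  · have h4 : al P ^ (2 * n / N) ≤ al P ^ (2 * (2 * n) / N) := by
      apply pow_le_pow_right₀ hal.le
      apply Nat.div_le_div_right
      omega
    have h5 : (0 : ℝ) ≤ (((2 * k * H : ℕ) : ℝ) ^ 2 * al P) ^ (N ^ k) := by positivity
    have h6 := mul_le_mul_of_nonneg_left h4 h5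
    linarith

end Pool.Agent.Helper53.GE
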