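import Mathlib
import Pool.Agent.Helper53.GE.LucAsym

set_option autoImplicit false

namespace Pool.Agent.Helper53.GE

open Finset

lemma al_le {P : ℤ} (hP : 1 ≤ P) : al P ≤ P + 1 := by
  have h1 := al_add P
  have h2 := be_abs hP
  rw [abs_le] at h2
  linarith [h2.1]

lemma LU_large {P : ℤ} (hP : 1 ≤ P) : ∀ n : ℕ, (al P) ^ n ≤ (LU P (n + 2) : ℝ)
  | 0 => by
    have h1 : (1 : ℝ) ≤ P := by exact_mod_cast hP
    simp [LU]
    exact_mod_cast hP
  | 1 => by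
    have h1 : (1 : ℝ) ≤ P := by exact_mod_cast hP
    have h2 := al_le hP
    simp only [LU]
    push_cast
    nlinarith
  | (n + 2) => by
    have h1 := LU_large hP n
    have h2 := LU_large hP (n + 1)
    have hP1 : (1 : ℝ) ≤ P := by exact_mod_cast hP
    have h3 : LU P (n + 2 + 2) = P * LU P (n + 1 + 2) + LU P (n + 2) := rfl
    rw [h3]
    push_cast
    have h4 : (al P) ^ (n + 2) = P * (al P) ^ (n + 1) + (al P) ^ n := by
      rw [pow_add, al_sq, pow_succ]; ring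
    rw [h4]
    nlinarith

lemma LV_large {P : ℤ} (hP : 1 ≤ P) {n : ℕ} (hn : 2 ≤ n) : (al P) ^ (n - 2) ≤ (LV P n : ℝ) := by
  have hal := al_gt hP
  have hP1 : (1 : ℝ) ≤ P := by exact_mod_cast hP
  have h1 : (LV P n : ℝ) = al P ^ n + be P ^ n := LV_eq (al_add P) (al_mul P) n
  have h2 : |be P ^ n| ≤ 1 := by rw [abs_pow]; exact pow_le_one₀ (abs_nonneg _) (be_abs hP)
  have h3 := (abs_le.1 h2).1
  have h4 : al P ^ n = al P ^ (n - 2) * (1 + P * al P) := by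
    rw [← al_sq, ← pow_add]; congr 1; omega
  have h5 : (1 : ℝ) ≤ al P ^ (n - 2) := one_le_pow₀ hal.le
  have h6 : (1 : ℝ) ≤ P * al P := by nlinarith
  have h7 : (1 : ℝ) ≤ al P ^ (n - 2) * (P * al P) := by nlinarith
  rw [h1, h4]
  linarith

lemma factor_large {P : ℤ} (hP : 1 ≤ P) {n : ℕ} (hn : 6 ≤ n) {M x y : ℤ}
    (hM : (al P) ^ (n - 3) ≤ (M : ℝ)) (hy : 1 < y) (hyx : y ≤ x) (hxy : x * y = M) :
    (al P) ^ (1 / 4 * (n : ℝ)) ≤ |(x : ℝ)| := by
  have hal := al_gt hP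
  have hx : 1 < x := lt_of_lt_of_le hy hyx
  have hx0 : (0 : ℝ) < x := by exact_mod_cast (by linarith : (0 : ℤ) < x)
  rw [abs_of_pos hx0]
  have h1 : (al P) ^ (n - 3) ≤ (x : ℝ) ^ 2 := by
    refine hM.trans ?_
    rw [← hxy]
    have : (y : ℝ) ≤ x := by exact_mod_cast hyx
    push_cast
    nlinarith
  have h2 : (al P) ^ n ≤ (x : ℝ) ^ 4 := by
    calc (al P) ^ n ≤ (al P) ^ (2 * (n - 3)) := pow_le_pow_right₀ hal.le (by omega)
      _ = ((al P) ^ (n - 3)) ^ 2 := by rw [mul_comm, pow_mul]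
      _ ≤ ((x : ℝ) ^ 2) ^ 2 := pow_le_pow_left₀ (by positivity) h1 2
      _ = (x : ℝ) ^ 4 := by ring
  have h4 : ((al P) ^ (1 / 4 * (n : ℝ))) ^ 4 ≤ (x : ℝ) ^ 4 := by
    rw [← Real.rpow_natCast, ← Real.rpow_mul (by linarith)]
    have e3 : 1 / 4 * (n : ℝ) * ((4 : ℕ) : ℝ) = n := by push_cast; ring
    rw [e3, Real.rpow_natCast]
    exact h2
  exact (pow_le_pow_iff_left₀ (by positivity) hx0.le (by norm_num)).1 h4

end Pool.Agent.Helper53.GE
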