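import Mathlib
import Pool.Agent.Helper53.GE.LucSize

/-!
# Large divisors of the solutions of `p ^ 2 - 2 r ^ 2 = -1` have no sparse multiples

Let `A n + B n √2 = (1 + √2) ^ n`, so that the positive solutions of `p ^ 2 - 2 r ^ 2 = -1` are the pairs
`(p, r) = (A n, B n)` with odd `n`. Since `A d` divides `A n` and `B d` divides `B n` for all divisors `d` of an
odd number `n`, only prime numbers `n` can give primes `p = A n > 1` or `r = B n > 1`. So let `n` be an odd prime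
and `M = A n` or `M = B n`. Write `α = 1 + √2`.

* If `z` is a sum of `k` terms `c_i B_i` with `|c_i| ≤ H` and no multiple of `M`, then the greatest common divisor
  of `z` and `M` is small: its square is at most `((2 k H) ^ 2 α) ^ (N ^ k) α ^ (4 n / N)` for `M = B n`, and it is
  at most `((2 k H) ^ 2 α) ^ (N ^ k) α ^ (2 n / N)` for `M = A n`, for all `N` with `N ^ k < n`.
* So for all `δ > 0` and `H` there is `c > 0` such that for all large primes `n` and every divisor `x ≥ α ^ (δ n)`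
  of `M`, all multiples of `x`, except those of `M`, are no sums of at most `c log n` terms `c_i B_i` with
  `|c_i| ≤ H`.
* In particular this holds for the larger factor in every factorization `M = x y`.
-/

set_option autoImplicit false

namespace Pool.Agent.Helper53.GE.PellSparse

/-- the rational parts of the powers of `1 + √2` -/
def A : ℕ → ℤ
  | 0 => 1
  | 1 => 1
  | (n + 2) => 2 * A (n + 1) + A n

/-- the Pell numbers, the coefficients of `√2` in the powers of `1 + √2` -/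
def B : ℕ → ℤ
  | 0 => 0
  | 1 => 1
  | (n + 2) => 2 * B (n + 1) + B n

/-- `z` is a sum of at most `k` terms `c_i B_i` with different `i ≥ 0` and integers `c_i` with `|c_i| ≤ H` -/
def FewPell (k H : ℕ) (z : ℤ) : Prop :=
  ∃ (s : Finset ℕ) (c : ℕ → ℤ), s.card ≤ k ∧ (∀ i ∈ s, |c i| ≤ H) ∧ z = ∑ i ∈ s, c i * B i

open Pool.Agent.Helper53.GE

lemma LU_B : ∀ n : ℕ, LU 2 n = B n
  | 0 => rfl
  | 1 => rfl
  | (n + 2) => by
    have h1 := LU_B n
    have h2 := LU_B (n + 1)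
    simp only [LU, B]
    rw [h1, h2]

lemma LV_A : ∀ n : ℕ, LV 2 n = 2 * A n
  | 0 => rfl
  | 1 => rfl
  | (n + 2) => by
    have h1 := LV_A n
    have h2 := LV_A (n + 1)
    simp only [LV, A]
    rw [h1, h2]
    ring

lemma A_odd : ∀ n : ℕ, Odd (A n)
  | 0 => ⟨0, rfl⟩
  | 1 => ⟨0, rfl⟩
  | (n + 2) => by
    have h1 := A_odd n
    simp only [A]
    exact (even_two_mul _).add_odd h1

lemma powers : ∀ n : ℕ, (1 + Real.sqrt 2) ^ n = A n + B n * Real.sqrt 2
  | 0 => by simp [A, B]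
  | 1 => by simp [A, B]
  | (n + 2) => by
    have h1 := powers n
    have h2 := powers (n + 1)
    have h3 : Real.sqrt 2 ^ 2 = 2 := Real.sq_sqrt (by norm_num)
    have h4 : (1 + Real.sqrt 2) ^ (n + 2) = 2 * (1 + Real.sqrt 2) ^ (n + 1) + (1 + Real.sqrt 2) ^ n := by
      rw [pow_add, pow_succ]
      linear_combination (1 + Real.sqrt 2) ^ n * h3
    rw [h4, h1, h2]
    simp only [A, B]
    push_cast
    ring

lemma few_iff {k H : ℕ} {z : ℤ} (h : FewPell k H z) : FewU 2 k H z := by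
  obtain ⟨s, c, hs, hc, hz⟩ := h
  refine ⟨s, c, hs, hc, ?_⟩
  rw [hz]
  apply Finset.sum_congr rfl
  intro i _
  rw [LU_B]

lemma al_two : al 2 = 1 + Real.sqrt 2 := by
  unfold al
  have h : Real.sqrt (((2 : ℤ) : ℝ) ^ 2 + 4) = 2 * Real.sqrt 2 := by
    rw [Real.sqrt_eq_iff_mul_self_eq (by positivity) (by positivity)]
    have h3 : Real.sqrt 2 * Real.sqrt 2 = 2 := Real.mul_self_sqrt (by norm_num)
    push_cast
    linear_combination -4 * h3
  rw [h]
  push_cast
  ring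

theorem asym (H : ℕ) {δ : ℝ} (hδ : 0 < δ) :
    ∃ c : ℝ, 0 < c ∧ ∃ n₀ : ℕ, ∀ n : ℕ, n₀ ≤ n → n.Prime → ∀ M : ℤ, M = A n ∨ M = B n →
      ∀ (k : ℕ) (x z : ℤ), x ∣ M → (1 + Real.sqrt 2) ^ (δ * n) ≤ |(x : ℝ)| → x ∣ z → ¬ M ∣ z →
      FewPell k H z → c * Real.log n < k := by
  obtain ⟨c₁, hc₁, n₁, h₁⟩ := U_asym (Or.inr rfl : (2 : ℤ) = 1 ∨ (2 : ℤ) = 2) H hδ
  obtain ⟨c₂, hc₂, n₂, h₂⟩ := V_asym (Or.inr rfl : (2 : ℤ) = 1 ∨ (2 : ℤ) = 2) H hδ
  refine ⟨min c₁ c₂, lt_min hc₁ hc₂, max n₁ n₂, ?_⟩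
  intro n hn0 hn M hM k x z hx hxδ hxz hnot hz
  have hn1 : n₁ ≤ n := le_trans (le_max_left _ _) hn0
  have hn2 : n₂ ≤ n := le_trans (le_max_right _ _) hn0
  have hlog : 0 ≤ Real.log n := Real.log_natCast_nonneg n
  rw [← al_two] at hxδ
  rcases hM with rfl | rfl
  · have h := h₂ n hn2 hn k x z (A n) (A_odd n) (by rw [LV_A]; exact Dvd.intro_left _ rfl) hx hxδ hxz
      hnot (few_iff hz)
    exact lt_of_le_of_lt (mul_le_mul_of_nonneg_right (min_le_right _ _) hlog) h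
  · have h := h₁ n hn1 hn k x z (by rw [LU_B]; exact hx) hxδ hxz (by rw [LU_B]; exact hnot)
      (few_iff hz)
    exact lt_of_le_of_lt (mul_le_mul_of_nonneg_right (min_le_left _ _) hlog) h

theorem result :
    -- the sequences
    (∀ n : ℕ, (1 + Real.sqrt 2) ^ n = A n + B n * Real.sqrt 2) ∧
    -- common divisors of the numbers `r` with sparse integers
    (∀ (n k H N : ℕ) (z : ℤ), n.Prime → n ≠ 2 → 1 ≤ N → N ^ k < n → FewPell k H z →
      ¬ B n ∣ z → (Int.gcd z (B n) : ℝ) ^ 2 ≤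
        (((2 * k * H : ℕ) : ℝ) ^ 2 * (1 + Real.sqrt 2)) ^ (N ^ k) *
          (1 + Real.sqrt 2) ^ (4 * n / N)) ∧
    -- common divisors of the numbers `p` with sparse integers
    (∀ (n k H N : ℕ) (z : ℤ), n.Prime → n ≠ 2 → 1 ≤ N → N ^ k < n → FewPell k H z →
      ¬ A n ∣ z → (Int.gcd z (A n) : ℝ) ≤
        (((2 * k * H : ℕ) : ℝ) ^ 2 * (1 + Real.sqrt 2)) ^ (N ^ k) *
          (1 + Real.sqrt 2) ^ (2 * n / N)) ∧
    -- multiples of large divisors
    (∀ (H : ℕ) (δ : ℝ), 0 < δ → ∃ c : ℝ, 0 < c ∧ ∃ n₀ : ℕ, ∀ n : ℕ, n₀ ≤ n → n.Prime →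
      ∀ M : ℤ, M = A n ∨ M = B n → ∀ (k : ℕ) (x z : ℤ), x ∣ M →
      (1 + Real.sqrt 2) ^ (δ * n) ≤ |(x : ℝ)| → x ∣ z → ¬ M ∣ z → FewPell k H z →
      c * Real.log n < k) ∧
    -- factorizations
    (∀ H : ℕ, ∃ c : ℝ, 0 < c ∧ ∃ n₀ : ℕ, ∀ n : ℕ, n₀ ≤ n → n.Prime →
      ∀ M : ℤ, M = A n ∨ M = B n → ∀ x y : ℤ, 1 < y → y ≤ x → x * y = M →
      ∀ (k : ℕ) (z : ℤ), x ∣ z → ¬ M ∣ z → FewPell k H z → c * Real.log n < k) := by
  refine ⟨powers, ?_, ?_, fun H δ hδ => asym H hδ, ?_⟩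
  · intro n k H N z hn hn2 hN hNn hz hnot
    obtain ⟨s, c, hs, hc, hzs⟩ := few_iff hz
    have h := U_main (P := 2) (Or.inr rfl) (n := n) (k := k) (H := H) (N := N)
      (hn.odd_of_ne_two hn2) hN (cop_of_prime hn hNn) s c hs hc
      (x := (Int.gcd z (B n) : ℤ)) (by rw [LU_B]; exact Int.gcd_dvd_right _ _)
      (by rw [← hzs]; exact Int.gcd_dvd_left _ _)
    rw [← hzs, LU_B, al_two] at h
    rcases h with h | h
    · exact absurd h hnot
    · have e1 : 2 * (2 * n) / N = 4 * n / N := by congr 1; ring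
      rw [e1] at h
      rw [Int.cast_natCast] at h
      exact h
  · intro n k H N z hn hn2 hN hNn hz hnot
    obtain ⟨s, c, hs, hc, hzs⟩ := few_iff hz
    have h := V_main (P := 2) (Or.inr rfl) (n := n) (k := k) (H := H) (N := N)
      (hn.odd_of_ne_two hn2) hN (cop_of_prime hn hNn) s c hs hc
      (x := (Int.gcd z (A n) : ℤ)) (V := A n) (A_odd n) (by rw [LV_A]; exact Dvd.intro_left _ rfl)
      (Int.gcd_dvd_right _ _) (by rw [← hzs]; exact Int.gcd_dvd_left _ _)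
    rw [← hzs, al_two] at h
    rcases h with h | h
    · exact absurd h hnot
    · rw [Int.cast_natCast, Nat.abs_cast] at h
      exact h
  · intro H
    obtain ⟨c, hc, n₀, h⟩ := asym H (by norm_num : (0 : ℝ) < 1 / 4)
    refine ⟨c, hc, max n₀ 6, ?_⟩
    intro n hn0 hn M hM x y hy hyx hxy k z hxz hnot hz
    have hn6 : 6 ≤ n := le_trans (le_max_right _ _) hn0
    refine h n (le_trans (le_max_left _ _) hn0) hn M hM k x z ⟨y, hxy.symm⟩ ?_ hxz hnot hz
    rw [← al_two]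
    refine factor_large (P := 2) (by norm_num) hn6 (M := M) ?_ hy hyx hxy
    have hal := al_gt (P := 2) (by norm_num)
    have hal2 : 2 ≤ al 2 := by
      rw [al_two]
      have : (1 : ℝ) ≤ Real.sqrt 2 := by
        rw [Real.one_le_sqrt]; norm_num
      linarith
    rcases hM with rfl | rfl
    · have h1 := LV_large (P := 2) (by norm_num) (n := n) (by omega)
      rw [LV_A] at h1
      push_cast at h1
      have h2 : al 2 ^ (n - 2) = al 2 ^ (n - 3) * al 2 := by
        rw [← pow_succ]; congr 1; omega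
      have h3 : 0 < al 2 ^ (n - 3) := by positivity
      nlinarith
    · have h0 : al 2 ^ (n - 3) ≤ al 2 ^ (n - 2) := pow_le_pow_right₀ hal.le (by omega)
      have h1 := LU_large (P := 2) (by norm_num) (n - 2)
      rw [show n - 2 + 2 = n by omega, LU_B] at h1
      exact h0.trans h1

end Pool.Agent.Helper53.GE.PellSparse
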